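import Mathlib

/-!
# Systems of local orderings

A system consists of a set of valid lists (valid orderings of small sets) and an equivalence
relation between lists which only depends on the pattern.
-/

set_option autoImplicit false
set_option linter.unusedSectionVars false

open Finset

namespace Pool.Agent.NH78.Glue

/-- A system of local orderings. -/
structure Sys (V : Type) where
  /-- equivalence of orderings -/
  E : List V → List V → Prop
  /-- valid orderings -/
  Val : List V → Prop
  refl : ∀ l, E l l
  symm : ∀ {l l'}, E l l' → E l' l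
  trans : ∀ {l l' l''}, E l l' → E l' l'' → E l l''
  map : ∀ (θ : Equiv.Perm V) {l l'}, E l l' → E (l.map θ) (l'.map θ)
  val_of : ∀ {l l'}, Val l → E l l' → Val l'
  of_val : ∀ {l l'}, Val l → Val l' → l.Perm l' → E l l'

variable {V : Type} [Fintype V] [DecidableEq V]

omit [DecidableEq V] in
/-- Extension of an injective map on a finite set to a permutation. -/
theorem exists_perm_ext (s : Finset V) (F : V → V) (hF : Set.InjOn F s) :
    ∃ θ : Equiv.Perm V, ∀ x ∈ s, θ x = F x := by
  classical
  obtain ⟨g, hg⟩ := Finset.exists_equiv_extend_of_card_eq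
    (α := V) (β := V) (t := univ) (by simp) (s := s) (f := F) (subset_univ _) hF
  refine ⟨g.trans (Equiv.subtypeUnivEquiv (by simp)), fun x hx => ?_⟩
  rw [← hg x hx]
  rfl

/-- Two lists without repetitions of the same length differ by a permutation of the entries. -/
theorem exists_map {l l' : List V} (h : l.Nodup) (h' : l'.Nodup) (hl : l.length = l'.length) :
    ∃ θ : Equiv.Perm V, l.map θ = l' := by
  classical
  by_cases hV : Nonempty V
  swap
  · have e1 : l = [] := by
      cases l with
      | nil => rfl
      | cons x _ => exact absurd ⟨x⟩ hV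
    have e2 : l' = [] := by
      cases l' with
      | nil => rfl
      | cons x _ => exact absurd ⟨x⟩ hV
    exact ⟨1, by rw [e1, e2]; rfl⟩
  obtain ⟨x0⟩ := hV
  obtain ⟨θ, hθ⟩ := exists_perm_ext l.toFinset (fun x => l'.getD (l.idxOf x) x0) (by
    intro x hx y hy hxy
    rw [mem_coe, List.mem_toFinset] at hx hy
    have h1 := List.idxOf_lt_length_of_mem hx
    have h2 := List.idxOf_lt_length_of_mem hy
    simp only at hxy
    rw [List.getD_eq_getElem _ _ (hl ▸ h1), List.getD_eq_getElem _ _ (hl ▸ h2)] at hxy
    have h3 := (List.Nodup.getElem_inj_iff h').1 hxy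
    exact (List.idxOf_inj hx).1 h3)
  refine ⟨θ, ?_⟩
  apply List.ext_getElem
  · rw [List.length_map, hl]
  · intro i h1 h2
    rw [List.getElem_map]
    have h3 : i < l.length := by rwa [List.length_map] at h1
    rw [hθ _ (by rw [List.mem_toFinset]; exact List.getElem_mem h3)]
    rw [h.idxOf_getElem i h3, List.getD_eq_getElem _ _ h2]

namespace Sys

variable (S : Sys V)

/-- Moving an entry across `t` entries, with `a` entries before and `b` entries behind. -/
def Mv (a t b : ℕ) : Prop := ∀ (α μ β : List V) (u : V), (α ++ u :: (μ ++ β)).Nodup →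
  α.length = a → μ.length = t → β.length = b →
    S.E (α ++ u :: (μ ++ β)) (α ++ (μ ++ u :: β))

/-- Exchange of neighbours. -/
def Sw (a b : ℕ) : Prop := ∀ (α β : List V) (u v : V), (α ++ u :: v :: β).Nodup →
  α.length = a → β.length = b → S.E (α ++ u :: v :: β) (α ++ v :: u :: β)

/-- All exchanges. -/
def Full (s : ℕ) : Prop := ∀ a b, a + b + 2 ≤ s → S.Sw a b

variable {S}

theorem mv_of {α μ β : List V} {u : V} (hn : (α ++ u :: (μ ++ β)).Nodup)
    (h : S.E (α ++ u :: (μ ++ β)) (α ++ (μ ++ u :: β))) :
    S.Mv α.length μ.length β.length := by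
  intro α' μ' β' u' hn' ha ht hb
  obtain ⟨θ, hθ⟩ := exists_map hn hn' (by simp [ha, ht, hb])
  rw [List.map_append] at hθ
  obtain ⟨e1, e2⟩ := List.append_inj hθ (by simp [ha])
  rw [List.map_cons, List.cons.injEq, List.map_append] at e2
  obtain ⟨e3, e4⟩ := e2
  obtain ⟨e5, e6⟩ := List.append_inj e4 (by simp [ht])
  have := S.map θ h
  rw [List.map_append, List.map_append, List.map_cons, List.map_append, List.map_append,
    List.map_cons, e1, e3, e5, e6] at this
  exact this

theorem sw_of {α β : List V} {u v : V} (hn : (α ++ u :: v :: β).Nodup)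
    (h : S.E (α ++ u :: v :: β) (α ++ v :: u :: β)) : S.Sw α.length β.length := by
  intro α' β' u' v' hn' ha hb
  obtain ⟨θ, hθ⟩ := exists_map hn hn' (by simp [ha, hb])
  rw [List.map_append] at hθ
  obtain ⟨e1, e2⟩ := List.append_inj hθ (by simp [ha])
  rw [List.map_cons, List.cons.injEq, List.map_cons, List.cons.injEq] at e2
  obtain ⟨e3, e4, e5⟩ := e2
  have := S.map θ h
  rw [List.map_append, List.map_append, List.map_cons, List.map_cons, List.map_cons,
    List.map_cons, e1, e3, e4, e5] at this
  exact this

theorem full_perm {s : ℕ} (hS : S.Full s) {l l' : List V} (h : l.Perm l') :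
    ∀ α : List V, (α ++ l).Nodup → (α ++ l).length ≤ s → S.E (α ++ l) (α ++ l') := by
  induction h with
  | nil => intro α _ _; exact S.refl _
  | cons x h ih =>
    intro α hn hl
    have := ih (α ++ [x]) (by simpa using hn) (by simpa using hl)
    simpa using this
  | swap x y l =>
    intro α hn hl
    exact hS α.length l.length (by simp at hl; omega) α l y x hn rfl rfl
  | trans h1 h2 ih1 ih2 =>
    intro α hn hl
    refine S.trans (ih1 α hn hl) (ih2 α ?_ ?_)
    · exact (List.Perm.nodup_iff (h1.append_left α)).1 hn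
    · rw [← (h1.append_left α).length_eq]; exact hl

/-- From moves to exchanges. -/
theorem sw_of_mv {a t b : ℕ} (h1 : S.Mv a t (b + 1)) (h2 : S.Mv a (t + 1) b) :
    S.Sw (a + t) b := by
  intro γ β u v hn ha hb
  -- split γ = α ++ μ
  obtain ⟨α, μ, rfl, hα, hμ⟩ : ∃ α μ, γ = α ++ μ ∧ α.length = a ∧ μ.length = t :=
    ⟨γ.take a, γ.drop a, (List.take_append_drop a γ).symm, by
      rw [List.length_take, ha]; omega, by rw [List.length_drop, ha]; omega⟩
  have hn1 : (α ++ u :: (μ ++ v :: β)).Nodup := by
    refine (List.Perm.nodup_iff ?_).1 hn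
    simp only [List.append_assoc]
    refine List.Perm.append_left α ?_
    exact List.perm_middle
  have e1 := h1 α μ (v :: β) u hn1 hα hμ (by simp [hb])
  have e2 := h2 α (μ ++ [v]) β u (by simpa using hn1) hα (by simp [hμ]) hb
  have e3 := S.trans (S.symm e1) (by simpa using e2)
  simpa using e3

/-- From moves to exchanges, second form. -/
theorem sw_of_mv' {a t b : ℕ} (h1 : S.Mv (a + 1) t b) (h2 : S.Mv a (t + 1) b) :
    S.Sw a (t + b) := by
  intro α γ x u hn ha hb
  obtain ⟨μ, β, rfl, hμ, hβ⟩ : ∃ μ β, γ = μ ++ β ∧ μ.length = t ∧ β.length = b :=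
    ⟨γ.take t, γ.drop t, (List.take_append_drop t γ).symm, by
      rw [List.length_take, hb]; omega, by rw [List.length_drop, hb]; omega⟩
  have e1 := h1 (α ++ [x]) μ β u (by simpa using hn) (by simp [ha]) hμ hβ
  have hn2 : (α ++ u :: (x :: μ ++ β)).Nodup := by
    refine (List.Perm.nodup_iff ?_).1 hn
    refine List.Perm.append_left α ?_
    exact List.Perm.swap _ _ _
  have e2 := h2 α (x :: μ) β u hn2 ha (by simp [hμ]) hβ
  have e3 := S.trans (by simpa using e1) (S.symm e2)
  simpa using e3

theorem sw_of_mv_one {a b : ℕ} (h : S.Mv a 1 b) : S.Sw a b := by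
  intro α β u v hn ha hb
  have := h α [v] β u (by simpa using hn) ha rfl hb
  simpa using this

/-- prefix reversals give all exchanges -/
theorem full_of_prefix {s : ℕ} (h : ∀ a b, a + b ≤ s → ∀ α β : List V, (α ++ β).Nodup →
    α.length = a → β.length = b → S.E (α ++ β) (α.reverse ++ β)) : S.Full s := by
  intro a b hab α β u v hn ha hb
  have hn0 : ((α ++ [u, v]) ++ β).Nodup := by simpa using hn
  have e1 := h (a + 2) b (by omega) (α ++ [u, v]) β hn0 (by simp [ha]) hb
  have hn1 : ([v, u] ++ (α.reverse ++ β)).Nodup := by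
    refine (List.Perm.nodup_iff ?_).1 hn0
    have : ((α ++ [u, v]) ++ β).Perm ((α ++ [u, v]).reverse ++ β) :=
      (List.reverse_perm _).symm.append_right _
    simpa using this
  have e2 := h 2 (a + b) (by omega) [v, u] (α.reverse ++ β) hn1 rfl (by simp [ha, hb])
  have hn2 : ((u :: v :: α.reverse) ++ β).Nodup := by
    refine (List.Perm.nodup_iff ?_).1 hn1
    exact List.Perm.swap _ _ _
  have e3 := h (a + 2) b (by omega) (u :: v :: α.reverse) β hn2 (by simp [ha]) hb
  simp only [List.reverse_append, List.reverse_cons, List.reverse_nil, List.nil_append,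
    List.cons_append, List.append_assoc, List.reverse_reverse] at e1 e2 e3
  exact S.trans (S.trans e1 e2) e3

/-- suffix reversals give all exchanges -/
theorem full_of_suffix {s : ℕ} (h : ∀ a b, a + b ≤ s → ∀ α β : List V, (β ++ α).Nodup →
    α.length = a → β.length = b → S.E (β ++ α) (β ++ α.reverse)) : S.Full s := by
  intro a b hab α β u v hn ha hb
  have e1 := h (b + 2) a (by omega) (u :: v :: β) α hn (by simp [hb]) ha
  have hn1 : ((α ++ β.reverse) ++ [v, u]).Nodup := by
    refine (List.Perm.nodup_iff ?_).1 hn
    rw [List.append_assoc]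
    refine List.Perm.append_left α ?_
    have : (u :: v :: β).Perm ((u :: v :: β).reverse) := (List.reverse_perm _).symm
    simpa using this
  have e2 := h 2 (a + b) (by omega) [v, u] (α ++ β.reverse) hn1 rfl (by simp [ha, hb])
  have hn2 : (α ++ (β.reverse ++ [u, v])).Nodup := by
    refine (List.Perm.nodup_iff ?_).1 hn1
    rw [List.append_assoc]
    refine List.Perm.append_left α (List.Perm.append_left _ ?_)
    exact List.Perm.swap _ _ _
  have e3 := h (b + 2) a (by omega) (β.reverse ++ [u, v]) α hn2 (by simp [hb]) ha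
  simp only [List.reverse_append, List.reverse_cons, List.reverse_nil, List.nil_append,
    List.cons_append, List.append_assoc, List.reverse_reverse] at e1 e2 e3
  exact S.trans (S.trans e1 e2) e3

/-- Rotations. -/
def Rot (S : Sys V) (s : ℕ) : Prop := ∀ t, t + 1 ≤ s → S.Mv 0 t 0

theorem rot_one {s : ℕ} (h : S.Rot s) {x : V} {l : List V} (hn : (x :: l).Nodup)
    (hl : (x :: l).length ≤ s) : S.E (x :: l) (l ++ [x]) := by
  have := h l.length (by simpa using hl) [] l [] x (by simpa using hn) rfl rfl rfl
  simpa using this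

theorem rot_append {s : ℕ} (h : S.Rot s) (m : List V) : ∀ l : List V, (m ++ l).Nodup →
    (m ++ l).length ≤ s → S.E (m ++ l) (l ++ m) := by
  induction m with
  | nil => intro l _ _; simpa using S.refl l
  | cons x m ih =>
    intro l hn hl
    have e1 := rot_one h (x := x) (l := m ++ l) hn hl
    have hn2 : (m ++ (l ++ [x])).Nodup := by
      refine (List.Perm.nodup_iff ?_).1 hn
      rw [← List.append_assoc]
      exact (List.perm_append_singleton x (m ++ l)).symm
    have e2 := ih (l ++ [x]) hn2 (by simp at hl ⊢; omega)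
    have e3 := S.trans (l' := m ++ (l ++ [x])) (by simpa using e1) e2
    simpa using e3

/-- Rotations together with rotations fixing the first entry give everything. -/
theorem full_of_rot {s : ℕ} (h : S.Rot s) (h1 : ∀ t, t + 2 ≤ s → S.Mv 1 t 0) : S.Full s := by
  intro a b hab α β u v hn ha hb
  -- rotate so that α is last
  have hlen : (α ++ u :: v :: β).length ≤ s := by simp [ha, hb]; omega
  have e1 := rot_append h α (u :: v :: β) hn hlen
  have hn1 : (u :: v :: (β ++ α)).Nodup := by
    refine (List.Perm.nodup_iff ?_).1 hn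
    have : (α ++ u :: v :: β).Perm ((u :: v :: β) ++ α) := List.perm_append_comm
    simpa using this
  have hn2 : (v :: u :: (β ++ α)).Nodup :=
    (List.Perm.nodup_iff (List.Perm.swap _ _ _)).1 hn1
  -- u v γ ~ u γ v
  have e2 := h1 (β ++ α).length (by simp [ha, hb]; omega) [u] (β ++ α) [] v
    (by simpa using hn1) rfl rfl rfl
  -- v u γ ~ u γ v
  have e3 := rot_one h (x := v) (l := u :: (β ++ α)) hn2 (by simp [ha, hb]; omega)
  have e4 : S.E (u :: v :: (β ++ α)) (v :: u :: (β ++ α)) := by
    refine S.trans ?_ (S.symm e3)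
    simpa using e2
  have hn3 : (α ++ v :: u :: β).Nodup := by
    refine (List.Perm.nodup_iff ?_).1 hn
    exact List.Perm.append_left α (List.Perm.swap _ _ _)
  have e5 := rot_append h α (v :: u :: β) hn3 (by simp [ha, hb]; omega)
  have e6 := S.trans (S.trans e1 (by simpa using e4)) (S.symm e5)
  exact e6

end Sys

end Pool.Agent.NH78.Glue
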