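import Pool.Agent.NH78.Glue.Valid

/-!
# Construction of aligned charts
-/

set_option autoImplicit false
set_option linter.unusedSectionVars false

open Finset

namespace Pool.Agent.NH78.Glue

variable {V : Type} [Fintype V] [DecidableEq V]

theorem exists_seq {P : Finset V → (V → ℤ) → Prop} (Q : Finset V) (m : ℕ) :
    (∀ Q' : Finset V, Q ⊆ Q' → Q'.card ≤ Q.card + 3 * m →
      ∃ (T : Finset V) (r : V → ℤ), T.card ≤ 3 ∧ Disjoint T Q' ∧ P T r) →
    ∃ (T : ℕ → Finset V) (ρ : ℕ → V → ℤ),
      (∀ i < m, (T i).card ≤ 3 ∧ Disjoint (T i) Q ∧ P (T i) (ρ i)) ∧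
      ∀ i < m, ∀ j < m, i ≠ j → Disjoint (T i) (T j) := by
  induction m with
  | zero =>
    intro _
    exact ⟨fun _ => ∅, fun _ _ => 0, fun i hi => absurd hi (by omega), fun i hi => absurd hi
      (by omega)⟩
  | succ m ih =>
    intro H
    obtain ⟨T, ρ, h1, h2⟩ := ih fun Q' hQ hc => H Q' hQ (by omega)
    have hcard : ((range m).biUnion T).card ≤ m * 3 := by
      have := card_biUnion_le_card_mul (range m) T 3 fun i hi => (h1 i (mem_range.1 hi)).1
      rwa [card_range] at this
    obtain ⟨T', r', hT', hd, hP⟩ := H (Q ∪ (range m).biUnion T) subset_union_left (by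
      have := card_union_le Q ((range m).biUnion T)
      omega)
    rw [disjoint_union_right, disjoint_biUnion_right] at hd
    refine ⟨fun i => if i = m then T' else T i, fun i => if i = m then r' else ρ i, ?_, ?_⟩
    · intro i hi
      by_cases him : i = m
      · simp only [him, if_true]
        exact ⟨hT', hd.1, hP⟩
      · simp only [if_neg him]
        exact h1 i (by omega)
    · intro i hi j hj hij
      by_cases him : i = m
      · by_cases hjm : j = m
        · omega
        · simp only [him, if_true, if_neg hjm]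
          exact hd.2 j (mem_range.2 (by omega))
      · by_cases hjm : j = m
        · simp only [hjm, if_true, if_neg him]
          exact (hd.2 i (mem_range.2 (by omega))).symm
        · simp only [if_neg him, if_neg hjm]
          exact h2 i (by omega) j (by omega) hij

/-- If the first elements are all available then they remain the first elements. -/
theorem first_sub {r : V → ℤ} {Z Y : Finset V} {c : ℕ} (hr : Function.Injective r)
    (hc : c ≤ Z.card)
    (hF : (Z.filter fun u => cnt r Z u < c) ⊆ Y) {u : V}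
    (h : cnt r Y u < c) : cnt r Z u < c := by
  by_contra hcon
  have h1 : (Z.filter fun u => cnt r Z u < c) ⊆ Y.filter fun y => r y < r u := by
    intro x hx
    rw [mem_filter]
    refine ⟨hF hx, ?_⟩
    exact lt_of_cnt_lt (Y := Z) (lt_of_lt_of_le (mem_filter.1 hx).2 (not_lt.1 hcon))
  have h2 := card_le_card h1
  rw [card_first hr hc] at h2
  unfold cnt at h
  omega

theorem exists_GD {S : Sys V} {s : ℕ} {pre : List V} {c m : ℕ} (hs : 1 ≤ s) (hpn : pre.Nodup)
    (hNF : ¬ S.Full s) (hNR : ¬ ∀ t, pre.length + t + 1 ≤ s → S.Mv pre.length t 0)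
    (hcs : 4 * s * s + 1 ≤ c) (hV : 4 * c + 25 * s * s + 20 ≤ (Vp pre).card)
    (H : ∀ Q : Finset V, Q.card ≤ 2 * c + 3 + 3 * m → ∃ (T : Finset V) (r : V → ℤ),
      T.card ≤ 3 ∧ Disjoint T Q ∧ Function.Injective r ∧ Chart S s pre (Vp pre \ T) r) :
    Nonempty (GD S s pre c m) := by
  have hpd : ∀ T : Finset V, ∀ x ∈ pre, x ∉ Vp pre \ T := by
    intro T x hx h
    exact (mem_Vp.1 (mem_sdiff.1 h).1) hx
  obtain ⟨T, r, hTc, -, hr, hch⟩ := H ∅ (by simp)
  obtain ⟨Z, hZ⟩ : ∃ Z, Z = Vp pre \ T := ⟨_, rfl⟩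
  have hZV : Z ⊆ Vp pre := hZ ▸ sdiff_subset
  have hZc : (Vp pre).card ≤ Z.card + 3 := by
    have := card_le_card_sdiff_add_card (s := Vp pre) (t := T)
    rw [hZ]
    omega
  obtain ⟨Em, hEm⟩ : ∃ F, F = Z.filter fun u => cnt r Z u < c := ⟨_, rfl⟩
  obtain ⟨Ep, hEp⟩ : ∃ F, F = Z.filter fun u => cnt (nr r) Z u < c := ⟨_, rfl⟩
  have hEmc : Em.card = c := by rw [hEm]; exact card_first hr (by omega)
  have hEpc : Ep.card = c := by rw [hEp]; exact card_first (nr_inj hr) (by omega)
  have hEmZ : Em ⊆ Z := hEm ▸ filter_subset _ _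
  have hEpZ : Ep ⊆ Z := hEp ▸ filter_subset _ _
  have hQc : (Em ∪ Ep ∪ T).card ≤ 2 * c + 3 := by
    have h1 := card_union_le (Em ∪ Ep) T
    have h2 := card_union_le Em Ep
    omega
  -- the sequence
  obtain ⟨T', ρ, h1, h2⟩ := exists_seq (P := fun T' r' => Function.Injective r' ∧
      Chart S s pre (Vp pre \ T') r' ∧ ∀ u ∈ Vp pre \ (T ∪ T'), ∀ v ∈ Vp pre \ (T ∪ T'),
        r u < r v → r' v < r' u → Ends r (Vp pre \ (T ∪ T')) c u v) (Em ∪ Ep ∪ T) m (by
    intro Q' hQ hc'
    obtain ⟨T', r', hT', hd, hr', hch'⟩ := H Q' (by omega)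
    have hcard : (Vp pre).card ≤ (Vp pre \ (T ∪ T')).card + 6 := by
      have h1 := card_le_card_sdiff_add_card (s := Vp pre) (t := T ∪ T')
      have h2 := card_union_le T T'
      omega
    have hsub : Vp pre \ (T ∪ T') ⊆ Vp pre \ T' := sdiff_subset_sdiff (Subset.refl _)
      subset_union_right
    have hsub2 : Vp pre \ (T ∪ T') ⊆ Vp pre \ T := sdiff_subset_sdiff (Subset.refl _)
      subset_union_left
    rcases rigid hs hr hr' hsub (hch.mono hsub2) hch' hpn (hpd T') hNF hNR hcs (by omega) with h | h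
    · exact ⟨T', r', hT', hd, hr', hch', h⟩
    · exact ⟨T', nr r', hT', hd, nr_inj hr', h.1, fun u hu v hv h3 h4 =>
        h.2 u hu v hv h3 (nr_lt.1 h4)⟩)
  have hd : ∀ i < m, Disjoint (T' i) Em ∧ Disjoint (T' i) Ep ∧ Disjoint (T' i) T := by
    intro i hi
    have := (h1 i hi).2.1
    rw [disjoint_union_right, disjoint_union_right] at this
    exact ⟨this.1.1, this.1.2, this.2⟩
  -- ends relative to the reference chart
  have hends : ∀ i < m, ∀ u ∈ Vp pre \ (T ∪ T' i), ∀ v ∈ Vp pre \ (T ∪ T' i),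
      r u < r v → ρ i v < ρ i u → (u ∈ Em ∧ v ∈ Em) ∨ (u ∈ Ep ∧ v ∈ Ep) := by
    intro i hi u hu v hv huv huv'
    have hYZ : Vp pre \ (T ∪ T' i) ⊆ Z := by
      rw [hZ]
      exact sdiff_subset_sdiff (Subset.refl _) subset_union_left
    have hE1 : Em ⊆ Vp pre \ (T ∪ T' i) := by
      intro x hx
      have hx1 := hEmZ hx
      rw [hZ, mem_sdiff] at hx1
      rw [mem_sdiff, mem_union]
      refine ⟨hx1.1, ?_⟩
      rintro (h | h)
      · exact hx1.2 h
      · exact disjoint_left.1 (hd i hi).1 h hx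
    have hE2 : Ep ⊆ Vp pre \ (T ∪ T' i) := by
      intro x hx
      have hx1 := hEpZ hx
      rw [hZ, mem_sdiff] at hx1
      rw [mem_sdiff, mem_union]
      refine ⟨hx1.1, ?_⟩
      rintro (h | h)
      · exact hx1.2 h
      · exact disjoint_left.1 (hd i hi).2.1 h hx
    rcases (h1 i hi).2.2.2.2 u hu v hv huv huv' with h | h
    · left
      constructor
      · rw [hEm, mem_filter]
        exact ⟨hYZ hu, first_sub hr (by omega) (hEm ▸ hE1) h.1⟩
      · rw [hEm, mem_filter]
        exact ⟨hYZ hv, first_sub hr (by omega) (hEm ▸ hE1) h.2⟩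
    · right
      constructor
      · rw [hEp, mem_filter]
        exact ⟨hYZ hu, first_sub (nr_inj hr) (by omega) (hEp ▸ hE2) h.1⟩
      · rw [hEp, mem_filter]
        exact ⟨hYZ hv, first_sub (nr_inj hr) (by omega) (hEp ▸ hE2) h.2⟩
  have hmemZ' : ∀ i < m, ∀ x, x ∈ Vp pre → x ∉ T → x ∉ T' i → x ∈ Vp pre \ (T ∪ T' i) := by
    intro i _ x hx h1 h2
    rw [mem_sdiff, mem_union]
    exact ⟨hx, fun h => h.elim h1 h2⟩
  have hEmV : Em ⊆ Vp pre := hEmZ.trans hZV
  have hEpV : Ep ⊆ Vp pre := hEpZ.trans hZV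
  have hEmT : ∀ x ∈ Em, x ∉ T := fun x hx => by
    have := hEmZ hx
    rw [hZ, mem_sdiff] at this
    exact this.2
  have hEpT : ∀ x ∈ Ep, x ∉ T := fun x hx => by
    have := hEpZ hx
    rw [hZ, mem_sdiff] at this
    exact this.2
  refine ⟨{
    T := T'
    ρ := ρ
    Em := Em
    Ep := Ep
    inj := fun i hi => (h1 i hi).2.2.1
    chart := fun i hi => (h1 i hi).2.2.2.1
    disjT := h2
    cardT := fun i hi => (h1 i hi).1
    Em_card := hEmc
    Ep_card := hEpc
    Em_sub := hEmV
    Ep_sub := hEpV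
    Em_disj := fun i hi => (hd i hi).1.symm
    Ep_disj := fun i hi => (hd i hi).2.1.symm
    low := ?_
    high := ?_
    conc := ?_ }⟩
  · intro i hi j hj hij t ht htV e he
    have htT : t ∉ T := disjoint_left.1 (hd j hj).2.2 ht
    have htm : t ∉ Em := disjoint_left.1 (hd j hj).1 ht
    have htp : t ∉ Ep := disjoint_left.1 (hd j hj).2.1 ht
    have hti : t ∉ T' i := disjoint_left.1 (h2 j hj i hi hij.symm) ht
    have htZ : t ∈ Z := by rw [hZ, mem_sdiff]; exact ⟨htV, htT⟩
    have h3 : r e < r t := by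
      have h4 : cnt r Z e < c := by
        have := he
        rw [hEm, mem_filter] at this
        exact this.2
      have h5 : ¬ cnt r Z t < c := fun h => htm (by rw [hEm, mem_filter]; exact ⟨htZ, h⟩)
      exact lt_of_cnt_lt (Y := Z) (by omega)
    rcases lt_trichotomy (ρ i e) (ρ i t) with h4 | h4 | h4
    · exact h4
    · have := (h1 i hi).2.2.1 h4
      exact absurd (this ▸ he) htm
    · rcases hends i hi e (hmemZ' i hi e (hEmV he) (hEmT e he)
        (disjoint_right.1 (hd i hi).1 he)) t (hmemZ' i hi t htV htT hti) h3 h4 with h5 | h5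
      · exact absurd h5.2 htm
      · exact absurd h5.2 htp
  · intro i hi j hj hij t ht htV e he
    have htT : t ∉ T := disjoint_left.1 (hd j hj).2.2 ht
    have htm : t ∉ Em := disjoint_left.1 (hd j hj).1 ht
    have htp : t ∉ Ep := disjoint_left.1 (hd j hj).2.1 ht
    have hti : t ∉ T' i := disjoint_left.1 (h2 j hj i hi hij.symm) ht
    have htZ : t ∈ Z := by rw [hZ, mem_sdiff]; exact ⟨htV, htT⟩
    have h3 : r t < r e := by
      have h4 : cnt (nr r) Z e < c := by
        have := he
        rw [hEp, mem_filter] at this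
        exact this.2
      have h5 : ¬ cnt (nr r) Z t < c := fun h => htp (by rw [hEp, mem_filter]; exact ⟨htZ, h⟩)
      exact nr_lt.1 (lt_of_cnt_lt (Y := Z) (by omega))
    rcases lt_trichotomy (ρ i t) (ρ i e) with h4 | h4 | h4
    · exact h4
    · have := (h1 i hi).2.2.1 h4
      exact absurd (this ▸ he) htp
    · rcases hends i hi t (hmemZ' i hi t htV htT hti) e (hmemZ' i hi e (hEpV he) (hEpT e he)
        (disjoint_right.1 (hd i hi).2.1 he)) h3 h4 with h5 | h5
      · exact absurd h5.1 htm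
      · exact absurd h5.1 htp
  · intro i hi j hj hij
    have hρi := (h1 i hi).2.2.1
    have hρj := (h1 j hj).2.2.1
    have hZc : (Vp pre).card ≤ (Vp pre \ (T' i ∪ T' j)).card + 6 := by
      have h3 := card_le_card_sdiff_add_card (s := Vp pre) (t := T' i ∪ T' j)
      have h4 := card_union_le (T' i) (T' j)
      have h5 := (h1 i hi).1
      have h6 := (h1 j hj).1
      omega
    have hsub : Vp pre \ (T' i ∪ T' j) ⊆ Vp pre \ T' j := sdiff_subset_sdiff (Subset.refl _)
      subset_union_right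
    have hsub2 : Vp pre \ (T' i ∪ T' j) ⊆ Vp pre \ T' i := sdiff_subset_sdiff (Subset.refl _)
      subset_union_left
    rcases rigid hs hρi hρj hsub (((h1 i hi).2.2.2.1).mono hsub2) (h1 j hj).2.2.2.1 hpn
      (hpd (T' j)) hNF hNR hcs (by omega) with h | h
    · exact h
    · exfalso
      obtain ⟨Y, hY⟩ : ∃ Y, Y = Vp pre \ (T' i ∪ T' j) := ⟨_, rfl⟩
      rw [← hY] at h hZc
      obtain ⟨Ms, hMs⟩ : ∃ Ms, Ms = Y \ (T ∪ (Em ∪ Ep)) := ⟨_, rfl⟩
      have hMsc : Y.card ≤ Ms.card + (2 * c + 3) := by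
        have h3 := card_le_card_sdiff_add_card (s := Y) (t := T ∪ (Em ∪ Ep))
        have h4 := card_union_le T (Em ∪ Ep)
        have h5 := card_union_le Em Ep
        rw [hMs]
        omega
      have hMsm : ∀ x ∈ Ms, x ∈ Y ∧ x ∈ Vp pre \ (T ∪ T' i) ∧ x ∈ Vp pre \ (T ∪ T' j) ∧ x ∉ Em ∧
          x ∉ Ep := by
        intro x hx
        rw [hMs, mem_sdiff, mem_union, mem_union] at hx
        push Not at hx
        have hxY := hx.1
        rw [hY, mem_sdiff, mem_union] at hxY
        push Not at hxY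
        exact ⟨hx.1, hmemZ' i hi x hxY.1 hx.2.1 hxY.2.1, hmemZ' j hj x hxY.1 hx.2.1 hxY.2.2,
          hx.2.2.1, hx.2.2.2⟩
      have hag : ∀ x ∈ Ms, ∀ y ∈ Ms, r x < r y → ρ i x < ρ i y ∧ ρ j x < ρ j y := by
        intro x hx y hy hxy
        have hne : x ≠ y := by rintro rfl; exact _root_.lt_irrefl _ hxy
        obtain ⟨_, hx2, hx3, hx4, hx5⟩ := hMsm x hx
        obtain ⟨_, hy2, hy3, _, _⟩ := hMsm y hy
        constructor
        · rcases lt_trichotomy (ρ i x) (ρ i y) with h3 | h3 | h3
          · exact h3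
          · exact absurd (hρi h3) hne
          · rcases hends i hi x hx2 y hy2 hxy h3 with h4 | h4
            · exact absurd h4.1 hx4
            · exact absurd h4.1 hx5
        · rcases lt_trichotomy (ρ j x) (ρ j y) with h3 | h3 | h3
          · exact h3
          · exact absurd (hρj h3) hne
          · rcases hends j hj x hx3 y hy3 hxy h3 with h4 | h4
            · exact absurd h4.1 hx4
            · exact absurd h4.1 hx5
      -- an element away from the ends
      obtain ⟨u, hu, hu2⟩ : ∃ u ∈ Ms, u ∉ (Y.filter fun y => cnt (ρ i) Y y < c) ∪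
          (Y.filter fun y => cnt (nr (ρ i)) Y y < c) := by
        apply exists_mem_notMem_of_card_lt_card
        refine lt_of_le_of_lt (card_union_le _ _) ?_
        rw [card_first hρi (by omega), card_first (nr_inj hρi) (by omega)]
        omega
      rw [mem_union, mem_filter, mem_filter] at hu2
      push Not at hu2
      have huY := (hMsm u hu).1
      have hu3 := hu2.1 huY
      have hu4 := hu2.2 huY
      obtain ⟨v, hv, hvu⟩ : ∃ v ∈ Ms, v ≠ u := by
        have h3 : 0 < (Ms.erase u).card := by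
          rw [card_erase_of_mem hu]
          omega
        obtain ⟨v, hv⟩ := card_pos.1 h3
        rw [mem_erase] at hv
        exact ⟨v, hv.2, hv.1⟩
      rcases lt_trichotomy (r u) (r v) with h3 | h3 | h3
      · obtain ⟨h4, h5⟩ := hag u hu v hv h3
        rcases h.2 u huY v (hMsm v hv).1 h4 h5 with h6 | h6
        · exact absurd h6.1 (not_lt.2 hu3)
        · exact absurd h6.1 (not_lt.2 hu4)
      · exact hvu (hr h3).symm
      · obtain ⟨h4, h5⟩ := hag v hv u hu h3
        rcases h.2 v (hMsm v hv).1 u huY h4 h5 with h6 | h6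
        · exact absurd h6.2 (not_lt.2 hu3)
        · exact absurd h6.2 (not_lt.2 hu4)

end Pool.Agent.NH78.Glue
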