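import Pool.Agent.NH78.Glue.Basic
import Pool.Agent.R795.Min.ES

/-!
# Charts: linear orders which induce valid orderings
-/

set_option autoImplicit false
set_option linter.unusedSectionVars false

open Finset

namespace Pool.Agent.NH78.Glue

variable {V : Type} [Fintype V] [DecidableEq V]

/-- The list is increasing for the ranking `r`. -/
def Srt (r : V → ℤ) (l : List V) : Prop := l.Pairwise fun a b => r a < r b

theorem Srt.nodup {r : V → ℤ} {l : List V} (h : Srt r l) : l.Nodup :=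
  List.Pairwise.imp (fun hab => by rintro rfl; exact lt_irrefl _ hab) h

/-- Every finite set has an increasing listing. -/
theorem exists_srt {r : V → ℤ} (hr : Function.Injective r) (s : Finset V) :
    ∃ l : List V, Srt r l ∧ (∀ x, x ∈ l ↔ x ∈ s) ∧ l.length = s.card := by
  classical
  induction s using Finset.induction_on_max_value r with
  | empty => exact ⟨[], List.Pairwise.nil, by simp, rfl⟩
  | insert a s ha hmax ih =>
    obtain ⟨l, h1, h2, h3⟩ := ih
    refine ⟨l ++ [a], ?_, ?_, ?_⟩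
    · rw [Srt, List.pairwise_append]
      refine ⟨h1, List.pairwise_singleton _ _, ?_⟩
      intro x hx y hy
      rw [List.mem_singleton] at hy
      subst hy
      have hxs := (h2 x).1 hx
      refine lt_of_le_of_ne (hmax x hxs) fun h => ?_
      exact ha (hr h ▸ hxs)
    · intro x
      rw [List.mem_append, h2, List.mem_singleton, mem_insert]
      tauto
    · rw [List.length_append, h3, card_insert_of_notMem ha]
      rfl

/-- An increasing list of given length inside a set. -/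
theorem exists_srt_card {r : V → ℤ} (hr : Function.Injective r) {s : Finset V} {a : ℕ}
    (h : a ≤ s.card) : ∃ l : List V, Srt r l ∧ (∀ x ∈ l, x ∈ s) ∧ l.length = a := by
  obtain ⟨t, ht, hc⟩ := exists_subset_card_eq h
  obtain ⟨l, h1, h2, h3⟩ := exists_srt hr t
  exact ⟨l, h1, fun x hx => ht ((h2 x).1 hx), by rw [h3, hc]⟩

/-- Two increasing lists with the same entries agree. -/
theorem srt_unique {r : V → ℤ} {l l' : List V} (h : Srt r l) (h' : Srt r l')
    (hm : ∀ x, x ∈ l ↔ x ∈ l') : l = l' := by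
  apply List.Perm.eq_of_pairwise (le := fun a b => r a < r b) _ h h'
  · rw [List.perm_ext_iff_of_nodup h.nodup h'.nodup]
    exact hm
  · intro x y _ _ h1 h2
    exact absurd h1 h2.asymm

/-- A chart: on `Z` the increasing lists are valid, also with the prefix `pre`. -/
def Chart (S : Sys V) (s : ℕ) (pre : List V) (Z : Finset V) (r : V → ℤ) : Prop :=
  ∀ l, Srt r l → (∀ x ∈ l, x ∈ Z) →
    (l.length ≤ s → S.Val l) ∧ (pre.length + l.length ≤ s → S.Val (pre ++ l))

theorem Chart.mono {S : Sys V} {s : ℕ} {pre : List V} {Z Z' : Finset V} {r : V → ℤ}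
    (h : Chart S s pre Z r) (hZ : Z' ⊆ Z) : Chart S s pre Z' r :=
  fun l hl hm => h l hl fun x hx => hZ (hm x hx)

theorem chart_E {S : Sys V} {s : ℕ} {pre : List V} {Z Z' : Finset V} {r r' : V → ℤ}
    (h : Chart S s pre Z r) (h' : Chart S s pre Z' r') {l l' : List V} (hl : Srt r l)
    (hl' : Srt r' l') (hp : l.Perm l') (hm : ∀ x ∈ l, x ∈ Z) (hm' : ∀ x ∈ l, x ∈ Z') :
    (l.length ≤ s → S.E l l') ∧ (pre.length + l.length ≤ s → S.E (pre ++ l) (pre ++ l')) := by
  have hm2 : ∀ x ∈ l', x ∈ Z' := fun x hx => hm' x (hp.mem_iff.2 hx)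
  have hlen := hp.length_eq
  refine ⟨fun hs => ?_, fun hs => ?_⟩
  · exact S.of_val ((h l hl hm).1 hs) ((h' l' hl' hm2).1 (hlen ▸ hs)) hp
  · exact S.of_val ((h l hl hm).2 hs) ((h' l' hl' hm2).2 (hlen ▸ hs)) (hp.append_left pre)

/-- The basic comparison. -/
theorem mv_inst {S : Sys V} {s : ℕ} {pre : List V} {Z : Finset V} {r r' : V → ℤ}
    (hr : Function.Injective r) (hc : Chart S s pre Z r) (hc' : Chart S s pre Z r')
    (hpn : pre.Nodup) (hpd : ∀ x ∈ pre, x ∉ Z) {Y P M N : Finset V} {u : V}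
    (hag : ∀ y ∈ Y, ∀ y' ∈ Y, r y < r y' → r' y < r' y') (hYZ : Y ⊆ Z) (hu : u ∈ Z)
    (hP : ∀ y ∈ P, y ∈ Y ∧ r y < r u ∧ r' y < r' u)
    (hM : ∀ y ∈ M, y ∈ Y ∧ r u < r y ∧ r' y < r' u)
    (hN : ∀ y ∈ N, y ∈ Y ∧ r u < r y ∧ r' u < r' y) {a t b : ℕ} (ha : a ≤ P.card)
    (ht : t ≤ M.card) (hb : b ≤ N.card) :
    (a + t + b + 1 ≤ s → S.Mv a t b) ∧
      (pre.length + a + t + b + 1 ≤ s → S.Mv (pre.length + a) t b) := by
  obtain ⟨α, sα, mα, lα⟩ := exists_srt_card hr ha
  obtain ⟨μ, sμ, mμ, lμ⟩ := exists_srt_card hr ht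
  obtain ⟨β, sβ, mβ, lβ⟩ := exists_srt_card hr hb
  have hMN : ∀ m ∈ M, ∀ n ∈ N, r m < r n := by
    intro m hm n hn
    obtain ⟨h1, h2, h3⟩ := hM m hm
    obtain ⟨h4, h5, h6⟩ := hN n hn
    rcases lt_trichotomy (r m) (r n) with h | h | h
    · exact h
    · have := hr h
      subst this
      exact absurd (h3.trans h6) (lt_irrefl _)
    · exact absurd (hag n h4 m h1 h) (not_lt.2 (h3.trans h6).le)
  have s1 : Srt r (α ++ u :: (μ ++ β)) := by
    simp only [Srt, List.pairwise_append, List.pairwise_cons, List.mem_cons, List.mem_append]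
    refine ⟨sα, ⟨?_, sμ, sβ, fun m hm n hn => hMN m (mμ m hm) n (mβ n hn)⟩, ?_⟩
    · rintro x (hx | hx)
      · exact (hM x (mμ x hx)).2.1
      · exact (hN x (mβ x hx)).2.1
    · rintro x hx y (rfl | hy | hy)
      · exact (hP x (mα x hx)).2.1
      · exact (hP x (mα x hx)).2.1.trans (hM y (mμ y hy)).2.1
      · exact (hP x (mα x hx)).2.1.trans (hN y (mβ y hy)).2.1
  have conv : ∀ l : List V, Srt r l → (∀ x ∈ l, x ∈ Y) → Srt r' l := by
    intro l hl hm
    exact List.Pairwise.imp_of_mem (fun {a b} ha hb hab => hag a (hm a ha) b (hm b hb) hab) hl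
  have s2 : Srt r' (α ++ (μ ++ u :: β)) := by
    simp only [Srt, List.pairwise_append, List.pairwise_cons, List.mem_cons, List.mem_append]
    refine ⟨conv α sα fun x hx => (hP x (mα x hx)).1,
      ⟨conv μ sμ fun x hx => (hM x (mμ x hx)).1, ⟨fun x hx => (hN x (mβ x hx)).2.2,
        conv β sβ fun x hx => (hN x (mβ x hx)).1⟩, ?_⟩, ?_⟩
    · rintro x hx y (rfl | hy)
      · exact (hM x (mμ x hx)).2.2
      · exact (hM x (mμ x hx)).2.2.trans (hN y (mβ y hy)).2.2
    · rintro x hx y (hy | rfl | hy)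
      · have h1 := hP x (mα x hx)
        have h2 := hM y (mμ y hy)
        exact hag x h1.1 y h2.1 (h1.2.1.trans h2.2.1)
      · exact (hP x (mα x hx)).2.2
      · exact (hP x (mα x hx)).2.2.trans (hN y (mβ y hy)).2.2
  have hperm : (α ++ u :: (μ ++ β)).Perm (α ++ (μ ++ u :: β)) :=
    List.Perm.append_left α List.perm_middle.symm
  have hmem : ∀ x ∈ α ++ u :: (μ ++ β), x ∈ Z := by
    intro x hx
    simp only [List.mem_append, List.mem_cons] at hx
    rcases hx with hx | rfl | hx | hx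
    · exact hYZ (hP x (mα x hx)).1
    · exact hu
    · exact hYZ (hM x (mμ x hx)).1
    · exact hYZ (hN x (mβ x hx)).1
  have hE := chart_E hc hc' s1 s2 hperm hmem hmem
  have hlen : (α ++ u :: (μ ++ β)).length = a + t + b + 1 := by simp [lα, lμ, lβ]; omega
  refine ⟨fun hs => ?_, fun hs => ?_⟩
  · have := Sys.mv_of s1.nodup (hE.1 (by omega))
    rwa [lα, lμ, lβ] at this
  · have hn : ((pre ++ α) ++ u :: (μ ++ β)).Nodup := by
      rw [List.append_assoc]
      exact List.Nodup.append hpn s1.nodup fun x hx hx' => hpd x hx (hmem x hx')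
    have := Sys.mv_of (S := S) hn (by
      rw [List.append_assoc, List.append_assoc]
      exact hE.2 (by omega))
    rwa [List.length_append, lα, lμ, lβ] at this

/-- Exchanges of discordant elements. -/
theorem sw_inst {S : Sys V} {s : ℕ} {pre : List V} {Z : Finset V} {r r' : V → ℤ}
    (hr : Function.Injective r) (hc : Chart S s pre Z r) (hc' : Chart S s pre Z r')
    {Y P N : Finset V} {u v : V}
    (hag : ∀ y ∈ Y, ∀ y' ∈ Y, r y < r y' → r' y < r' y') (hYZ : Y ⊆ Z) (hu : u ∈ Z) (hv : v ∈ Z)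
    (huv : r u < r v) (huv' : r' v < r' u)
    (hP : ∀ y ∈ P, y ∈ Y ∧ r y < r u ∧ r' y < r' v)
    (hN : ∀ y ∈ N, y ∈ Y ∧ r v < r y ∧ r' u < r' y) {a b : ℕ} (ha : a ≤ P.card)
    (hb : b ≤ N.card) (hs : a + b + 2 ≤ s) : S.Sw a b := by
  obtain ⟨α, sα, mα, lα⟩ := exists_srt_card hr ha
  obtain ⟨β, sβ, mβ, lβ⟩ := exists_srt_card hr hb
  have s1 : Srt r (α ++ u :: v :: β) := by
    simp only [Srt, List.pairwise_append, List.pairwise_cons, List.mem_cons]
    refine ⟨sα, ⟨?_, ?_, sβ⟩, ?_⟩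
    · rintro x (rfl | hx)
      · exact huv
      · exact huv.trans (hN x (mβ x hx)).2.1
    · intro x hx
      exact (hN x (mβ x hx)).2.1
    · rintro x hx y (rfl | rfl | hy)
      · exact (hP x (mα x hx)).2.1
      · exact (hP x (mα x hx)).2.1.trans huv
      · exact ((hP x (mα x hx)).2.1.trans huv).trans (hN y (mβ y hy)).2.1
  have conv : ∀ l : List V, Srt r l → (∀ x ∈ l, x ∈ Y) → Srt r' l := by
    intro l hl hm
    exact List.Pairwise.imp_of_mem (fun {a b} ha hb hab => hag a (hm a ha) b (hm b hb) hab) hl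
  have s2 : Srt r' (α ++ v :: u :: β) := by
    simp only [Srt, List.pairwise_append, List.pairwise_cons, List.mem_cons]
    refine ⟨conv α sα fun x hx => (hP x (mα x hx)).1, ⟨?_, ?_,
      conv β sβ fun x hx => (hN x (mβ x hx)).1⟩, ?_⟩
    · rintro x (rfl | hx)
      · exact huv'
      · exact huv'.trans (hN x (mβ x hx)).2.2
    · intro x hx
      exact (hN x (mβ x hx)).2.2
    · rintro x hx y (rfl | rfl | hy)
      · exact (hP x (mα x hx)).2.2
      · exact (hP x (mα x hx)).2.2.trans huv'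
      · exact ((hP x (mα x hx)).2.2.trans huv').trans (hN y (mβ y hy)).2.2
  have hmem : ∀ x ∈ α ++ u :: v :: β, x ∈ Z := by
    intro x hx
    simp only [List.mem_append, List.mem_cons] at hx
    rcases hx with hx | rfl | rfl | hx
    · exact hYZ (hP x (mα x hx)).1
    · exact hu
    · exact hv
    · exact hYZ (hN x (mβ x hx)).1
  have hE := (chart_E hc hc' s1 s2 (List.Perm.append_left α (List.Perm.swap _ _ _)) hmem hmem).1
    (by simp [lα, lβ]; omega)
  have := Sys.sw_of s1.nodup hE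
  rwa [lα, lβ] at this

/-- Erdős–Szekeres for two rankings. -/
theorem es {r r' : V → ℤ} (hr : Function.Injective r) (hr' : Function.Injective r')
    {W : Finset V} {m : ℕ} (hW : m * m < W.card) : ∃ t ⊆ W, m < t.card ∧
      ((∀ x ∈ t, ∀ y ∈ t, r x < r y → r' x < r' y) ∨
        ∀ x ∈ t, ∀ y ∈ t, r x < r y → r' y < r' x) := by
  classical
  let _ : LinearOrder {x // x ∈ W} := LinearOrder.lift' (fun x => r x.1)
    fun a b h => Subtype.ext (hr h)
  have hlt : ∀ a b : {x // x ∈ W}, a < b ↔ r a.1 < r b.1 := fun a b => Iff.rfl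
  have hinj : Function.Injective fun x : {x // x ∈ W} => r' x.1 :=
    fun a b h => Subtype.ext (hr' h)
  have hcard : m * m < Fintype.card {x // x ∈ W} := by rwa [Fintype.card_coe]
  rcases Pool.Agent.R795.Min.erdos_szekeres hcard hinj with ⟨t, ht, hm⟩ | ⟨t, ht, hm⟩
  · refine ⟨t.map (Function.Embedding.subtype _), ?_, by rwa [card_map], Or.inl ?_⟩
    · intro x hx
      rw [mem_map] at hx
      obtain ⟨y, _, rfl⟩ := hx
      exact y.2
    · intro x hx y hy hxy
      rw [mem_map] at hx hy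
      obtain ⟨x, hx, rfl⟩ := hx
      obtain ⟨y, hy, rfl⟩ := hy
      exact hm (mem_coe.2 hx) (mem_coe.2 hy) ((hlt x y).2 hxy)
  · refine ⟨t.map (Function.Embedding.subtype _), ?_, by rwa [card_map], Or.inr ?_⟩
    · intro x hx
      rw [mem_map] at hx
      obtain ⟨y, _, rfl⟩ := hx
      exact y.2
    · intro x hx y hy hxy
      rw [mem_map] at hx hy
      obtain ⟨x, hx, rfl⟩ := hx
      obtain ⟨y, hy, rfl⟩ := hy
      exact hm (mem_coe.2 hx) (mem_coe.2 hy) ((hlt x y).2 hxy)

end Pool.Agent.NH78.Glue
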