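import Pool.Agent.NH78.Glue.Build

/-!
# The gluing theorem
-/

set_option autoImplicit false
set_option linter.unusedSectionVars false

open Finset

namespace Pool.Agent.NH78.Glue

variable {V : Type} [Fintype V] [DecidableEq V]

theorem GD.exists_rank {S : Sys V} {s : ℕ} {pre : List V} {c m : ℕ} (D : GD S s pre c m)
    (hms : s + 2 ≤ m) (hm : 4 ≤ m) (hpn : pre.Nodup) (hp1 : pre.length ≤ 1)
    (hV : 2 * c + s + 6 ≤ (Vp pre).card) :
    ∃ r : V → ℤ, Function.Injective r ∧ ∀ l, Srt r l → l.length ≤ s → S.Val l := by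
  classical
  obtain ⟨R, hR⟩ : ∃ R : V → ℕ, R = fun u => ((Vp pre).filter fun v => D.lt v u).card := ⟨_, rfl⟩
  have key : ∀ u ∈ Vp pre, ∀ v ∈ Vp pre, D.lt u v → R u < R v := by
    intro u hu v hv huv
    rw [hR]
    apply card_lt_card
    rw [ssubset_iff_of_subset]
    · refine ⟨u, mem_filter.2 ⟨hu, huv⟩, fun h => ?_⟩
      exact D.lt_irrefl (by omega) (mem_filter.1 h).2
    · intro x hx
      rw [mem_filter] at hx ⊢
      exact ⟨hx.1, D.lt_trans hm hx.1 hu hv hx.2 huv⟩
  have key' : ∀ u ∈ Vp pre, ∀ v ∈ Vp pre, R u < R v → D.lt u v := by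
    intro u hu v hv huv
    have hne : u ≠ v := by rintro rfl; exact _root_.lt_irrefl _ huv
    rcases D.lt_tri (by omega) hne with h | h
    · exact h
    · exact absurd (key v hv u hu h) (not_lt.2 huv.le)
  obtain ⟨r, hr⟩ : ∃ r : V → ℤ, r = fun u => if u ∈ pre then -1 else (R u : ℤ) := ⟨_, rfl⟩
  have r1 : ∀ u ∈ pre, r u = -1 := fun u hu => by rw [hr]; exact if_pos hu
  have r2 : ∀ u, u ∉ pre → r u = R u := fun u hu => by rw [hr]; exact if_neg hu
  have hpre : ∀ u ∈ pre, pre = [u] := by
    intro u hu
    match pre, hp1, hu with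
    | [a], _, hu => rw [List.mem_singleton.1 hu]
    | a :: b :: l, hp1, _ => simp at hp1
  have rlt : ∀ u v, u ∉ pre → v ∉ pre → r u < r v → D.lt u v := by
    intro u v hu hv huv
    rw [r2 u hu, r2 v hv] at huv
    exact key' u (mem_Vp.2 hu) v (mem_Vp.2 hv) (by exact_mod_cast huv)
  refine ⟨r, ?_, ?_⟩
  · intro u v huv
    by_cases hu : u ∈ pre
    · by_cases hv : v ∈ pre
      · have h1 := hpre u hu
        rw [h1, List.mem_singleton] at hv
        exact hv.symm
      · rw [r1 u hu, r2 v hv] at huv
        omega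
    · by_cases hv : v ∈ pre
      · rw [r2 u hu, r1 v hv] at huv
        omega
      · rw [r2 u hu, r2 v hv] at huv
        by_contra hne
        rcases D.lt_tri (by omega) hne with h | h
        · have := key u (mem_Vp.2 hu) v (mem_Vp.2 hv) h
          omega
        · have := key v (mem_Vp.2 hv) u (mem_Vp.2 hu) h
          omega
  · intro l hl hls
    by_cases h : ∀ y ∈ l, y ∉ pre
    · have hpw : l.Pairwise D.lt := hl.imp_of_mem fun {a b} ha hb hab =>
        rlt a b (h a ha) (h b hb) hab
      exact (D.valid hms hm hpn hV hpw fun x hx => mem_Vp.2 (h x hx)).1 hls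
    · push Not at h
      obtain ⟨y, hyl, hyp⟩ := h
      cases l with
      | nil => exact absurd hyl (List.not_mem_nil)
      | cons a l' =>
        rw [Srt, List.pairwise_cons] at hl
        have hap : a ∈ pre := by
          by_contra hap
          rw [List.mem_cons] at hyl
          rcases hyl with rfl | hyl
          · exact hap hyp
          · have := hl.1 y hyl
            rw [r1 y hyp, r2 a hap] at this
            omega
        have hpa := hpre a hap
        have hl'n : ∀ x ∈ l', x ∉ pre := by
          intro x hx hxp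
          have := hl.1 x hx
          rw [r1 a hap, r1 x hxp] at this
          exact _root_.lt_irrefl _ this
        have hpw : l'.Pairwise D.lt := hl.2.imp_of_mem fun {a b} ha hb hab =>
          rlt a b (hl'n a ha) (hl'n b hb) hab
        have := (D.valid hms hm hpn hV hpw fun x hx => mem_Vp.2 (hl'n x hx)).2 (by
          rw [List.length_cons] at hls
          omega)
        rw [hpa] at this
        exact this

/-- Rotating a ranking. -/
theorem rotate {S : Sys V} {s : ℕ} (hRot : S.Rot s) {T : Finset V} {r : V → ℤ}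
    (hr : Function.Injective r)
    (h : ∀ l, Srt r l → (∀ x ∈ l, x ∉ T) → l.length ≤ s → S.Val l) {y : V} (hy : y ∉ T) :
    ∃ r' : V → ℤ, Function.Injective r' ∧ Chart S s [y] (Vp [y] \ T) r' := by
  classical
  obtain ⟨M, hM⟩ : ∃ M : ℤ, M = 1 + 2 * ∑ z, |r z| := ⟨_, rfl⟩
  have hbd : ∀ x, |r x| ≤ ∑ z, |r z| := fun x =>
    single_le_sum (f := fun z => |r z|) (fun z _ => abs_nonneg _) (mem_univ x)
  have hbig : ∀ x z, r z < r x + M := by
    intro x z
    have h1 := hbd x
    have h2 := hbd z
    have h3 := neg_abs_le (r x)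
    have h4 := le_abs_self (r z)
    omega
  obtain ⟨r', hr'⟩ : ∃ r' : V → ℤ, r' = fun x => if r x < r y then r x + M else r x := ⟨_, rfl⟩
  have e1 : ∀ x, r x < r y → r' x = r x + M := fun x hx => by rw [hr']; exact if_pos hx
  have e2 : ∀ x, ¬ r x < r y → r' x = r x := fun x hx => by rw [hr']; exact if_neg hx
  have hinj : Function.Injective r' := by
    intro x z hxz
    by_cases hx : r x < r y
    · by_cases hz : r z < r y
      · rw [e1 x hx, e1 z hz] at hxz
        exact hr (by omega)
      · rw [e1 x hx, e2 z hz] at hxz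
        have := hbig x z
        omega
    · by_cases hz : r z < r y
      · rw [e2 x hx, e1 z hz] at hxz
        have := hbig z x
        omega
      · rw [e2 x hx, e2 z hz] at hxz
        exact hr hxz
  refine ⟨r', hinj, ?_⟩
  intro l hl hm
  have hm1 : ∀ x ∈ l, x ∉ T := fun x hx => (mem_sdiff.1 (hm x hx)).2
  have hm2 : ∀ x ∈ l, x ≠ y := fun x hx h => by
    have := mem_Vp.1 (mem_sdiff.1 (hm x hx)).1
    exact this (List.mem_singleton.2 h)
  obtain ⟨l1, hl1⟩ : ∃ l1, l1 = l.filter fun x => decide (r x < r y) := ⟨_, rfl⟩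
  obtain ⟨l2, hl2⟩ : ∃ l2, l2 = l.filter fun x => decide (¬ r x < r y) := ⟨_, rfl⟩
  have m1 : ∀ x, x ∈ l1 ↔ x ∈ l ∧ r x < r y := by
    intro x; rw [hl1, List.mem_filter, decide_eq_true_iff]
  have m2 : ∀ x, x ∈ l2 ↔ x ∈ l ∧ ¬ r x < r y := by
    intro x; rw [hl2, List.mem_filter, decide_eq_true_iff]
  have p1 : Srt r' l1 := hl1 ▸ hl.filter _
  have p2 : Srt r' l2 := hl2 ▸ hl.filter _
  have q1 : Srt r l1 := p1.imp_of_mem fun {a b} ha hb hab => by
    rw [e1 a ((m1 a).1 ha).2, e1 b ((m1 b).1 hb).2] at hab
    omega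
  have q2 : Srt r l2 := p2.imp_of_mem fun {a b} ha hb hab => by
    rw [e2 a ((m2 a).1 ha).2, e2 b ((m2 b).1 hb).2] at hab
    exact hab
  have hle : l = l2 ++ l1 := by
    apply srt_unique hl
    · rw [Srt, List.pairwise_append]
      refine ⟨p2, p1, ?_⟩
      intro a ha b hb
      rw [e2 a ((m2 a).1 ha).2, e1 b ((m1 b).1 hb).2]
      exact hbig b a
    · intro x
      rw [List.mem_append, m1, m2]
      constructor
      · intro hx
        by_cases h1 : r x < r y
        · exact Or.inr ⟨hx, h1⟩
        · exact Or.inl ⟨hx, h1⟩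
      · rintro (h1 | h1) <;> exact h1.1
  have hlen : l.length = l2.length + l1.length := by
    have := congrArg List.length hle
    rwa [List.length_append] at this
  have hlt : ∀ a ∈ l1, ∀ b ∈ l2, r a < r b := by
    intro a ha b hb
    exact lt_of_lt_of_le ((m1 a).1 ha).2 (not_lt.1 ((m2 b).1 hb).2)
  have s1 : Srt r (l1 ++ l2) := by
    rw [Srt, List.pairwise_append]
    exact ⟨q1, q2, hlt⟩
  have s2 : Srt r (l1 ++ (y :: l2)) := by
    rw [Srt, List.pairwise_append, List.pairwise_cons]
    refine ⟨q1, ⟨?_, q2⟩, ?_⟩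
    · intro b hb
      have h1 := (m2 b).1 hb
      refine lt_of_le_of_ne (not_lt.1 h1.2) fun h2 => hm2 b h1.1 (hr h2).symm
    · intro a ha b hb
      rw [List.mem_cons] at hb
      rcases hb with rfl | hb
      · exact ((m1 a).1 ha).2
      · exact hlt a ha b hb
  refine ⟨fun hs => ?_, fun hs => ?_⟩
  · have hv := h (l1 ++ l2) s1 (by
      intro x hx
      rw [List.mem_append, m1, m2] at hx
      exact hm1 x (by rcases hx with hx | hx <;> exact hx.1)) (by
      rw [List.length_append]; omega)
    have hE := Sys.rot_append hRot l1 l2 s1.nodup (by rw [List.length_append]; omega)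
    rw [hle]
    exact S.val_of hv hE
  · rw [List.length_singleton] at hs
    have hv := h (l1 ++ (y :: l2)) s2 (by
      intro x hx
      rw [List.mem_append, List.mem_cons, m1, m2] at hx
      rcases hx with hx | rfl | hx
      · exact hm1 x hx.1
      · exact hy
      · exact hm1 x hx.1) (by
      rw [List.length_append, List.length_cons]; omega)
    have hE := Sys.rot_append hRot l1 (y :: l2) s2.nodup (by
      rw [List.length_append, List.length_cons]; omega)
    rw [hle]
    exact S.val_of hv hE

/-- The gluing theorem. -/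
theorem core {S : Sys V} {s : ℕ} (hs : 1 ≤ s)
    (hV : 4 * (4 * s * s + 1) + 25 * s * s + 21 ≤ Fintype.card V)
    (H : ∀ Q : Finset V, Q.card ≤ 2 * (4 * s * s + 1) + 3 + 3 * (s + 4) + 1 →
      ∃ (T : Finset V) (r : V → ℤ), T.card ≤ 3 ∧ Disjoint T Q ∧ Function.Injective r ∧
        ∀ l, Srt r l → (∀ x ∈ l, x ∉ T) → l.length ≤ s → S.Val l) :
    ∃ r : V → ℤ, Function.Injective r ∧ ∀ l, Srt r l → l.length ≤ s → S.Val l := by
  classical
  by_cases hF : S.Full s
  · -- every ordering is as good as every other
    obtain ⟨e⟩ : Nonempty (V ≃ Fin (Fintype.card V)) := ⟨Fintype.equivFin V⟩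
    refine ⟨fun v => ((e v : ℕ) : ℤ), ?_, ?_⟩
    · intro x y hxy
      have h1 : (e x : ℕ) = (e y : ℕ) := Int.ofNat_inj.1 hxy
      exact e.injective (Fin.ext h1)
    · intro l hl hls
      have hln := hl.nodup
      obtain ⟨T, r, -, hd, hr, hv⟩ := H l.toFinset (by
        have := List.toFinset_card_le l
        omega)
      obtain ⟨l', sl', ml', ll'⟩ := exists_srt hr l.toFinset
      simp only [List.mem_toFinset] at ml'
      have hp : l'.Perm l := (List.perm_ext_iff_of_nodup sl'.nodup hln).2 ml'
      have h1 := hv l' sl' (fun x hx hxT => by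
        refine disjoint_left.1 hd hxT ?_
        rw [List.mem_toFinset]
        exact (ml' x).1 hx) (by rw [hp.length_eq]; exact hls)
      have h2 := Sys.full_perm hF hp [] (by simpa using sl'.nodup) (by
        simpa using (by rw [hp.length_eq]; exact hls))
      exact S.val_of h1 (by simpa using h2)
  by_cases hRot : S.Rot s
  · have hVne : 0 < Fintype.card V := by omega
    obtain ⟨y⟩ : Nonempty V := Fintype.card_pos_iff.1 hVne
    have hVp : Fintype.card V ≤ (Vp [y]).card + 1 := by
      have h1 := card_le_card_sdiff_add_card (s := (univ : Finset V)) (t := [y].toFinset)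
      have h2 : ([y].toFinset).card = 1 := by simp
      rw [h2, card_univ] at h1
      exact h1
    have hNR : ¬ ∀ t, [y].length + t + 1 ≤ s → S.Mv [y].length t 0 := by
      intro h
      apply hF
      apply Sys.full_of_rot hRot
      intro t ht
      exact h t (by rw [List.length_singleton]; omega)
    obtain ⟨D⟩ := exists_GD (S := S) (s := s) (pre := [y]) (c := 4 * s * s + 1) (m := s + 4) hs
      (List.nodup_singleton y) hF hNR le_rfl (by omega) (by
      intro Q hQ
      obtain ⟨T, r, hT, hd, hr, hv⟩ := H (insert y Q) (by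
        have := card_insert_le y Q
        omega)
      rw [disjoint_insert_right] at hd
      obtain ⟨r', hr', hch⟩ := rotate hRot hr hv hd.1
      exact ⟨T, r', hT, hd.2, hr', hch⟩)
    exact D.exists_rank (by omega) (by omega) (List.nodup_singleton y) (by simp) (by nlinarith)
  · have hVp : (Vp ([] : List V)).card = Fintype.card V := by
      unfold Vp
      simp
    have hNR : ¬ ∀ t, ([] : List V).length + t + 1 ≤ s → S.Mv ([] : List V).length t 0 := by
      intro h
      apply hRot
      intro t ht
      exact h t (by rw [List.length_nil]; omega)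
    obtain ⟨D⟩ := exists_GD (S := S) (s := s) (pre := []) (c := 4 * s * s + 1) (m := s + 4) hs
      List.nodup_nil hF hNR le_rfl (by omega) (by
      intro Q hQ
      obtain ⟨T, r, hT, hd, hr, hv⟩ := H Q (by omega)
      refine ⟨T, r, hT, hd, hr, ?_⟩
      intro l hl hm
      have := hv l hl (fun x hx => (mem_sdiff.1 (hm x hx)).2)
      refine ⟨this, fun h => ?_⟩
      rw [List.nil_append]
      apply this
      rw [List.length_nil] at h
      omega)
    exact D.exists_rank (by omega) (by omega) List.nodup_nil (by simp) (by nlinarith)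

end Pool.Agent.NH78.Glue
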