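import Pool.Agent.NH78.Glue.Rigid2

/-!
# Gluing charts
-/

set_option autoImplicit false
set_option linter.unusedSectionVars false

open Finset

namespace Pool.Agent.NH78.Glue

variable {V : Type} [Fintype V] [DecidableEq V]

/-- The elements outside of the prefix. -/
def Vp (pre : List V) : Finset V := univ \ pre.toFinset

theorem mem_Vp {pre : List V} {x : V} : x ∈ Vp pre ↔ x ∉ pre := by
  rw [Vp, mem_sdiff, List.mem_toFinset]
  simp

/-- The data of aligned charts. -/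
structure GD (S : Sys V) (s : ℕ) (pre : List V) (c m : ℕ) where
  T : ℕ → Finset V
  ρ : ℕ → V → ℤ
  Em : Finset V
  Ep : Finset V
  inj : ∀ i < m, Function.Injective (ρ i)
  chart : ∀ i < m, Chart S s pre (Vp pre \ T i) (ρ i)
  disjT : ∀ i < m, ∀ j < m, i ≠ j → Disjoint (T i) (T j)
  cardT : ∀ i < m, (T i).card ≤ 3
  Em_card : Em.card = c
  Ep_card : Ep.card = c
  Em_sub : Em ⊆ Vp pre
  Ep_sub : Ep ⊆ Vp pre
  Em_disj : ∀ i < m, Disjoint Em (T i)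
  Ep_disj : ∀ i < m, Disjoint Ep (T i)
  low : ∀ i < m, ∀ j < m, i ≠ j → ∀ t ∈ T j, t ∈ Vp pre → ∀ e ∈ Em, ρ i e < ρ i t
  high : ∀ i < m, ∀ j < m, i ≠ j → ∀ t ∈ T j, t ∈ Vp pre → ∀ e ∈ Ep, ρ i t < ρ i e
  conc : ∀ i < m, ∀ j < m, i ≠ j → ∀ u ∈ Vp pre \ (T i ∪ T j), ∀ v ∈ Vp pre \ (T i ∪ T j),
    ρ i u < ρ i v → ρ j v < ρ j u → Ends (ρ i) (Vp pre \ (T i ∪ T j)) c u v

namespace GD

variable {S : Sys V} {s : ℕ} {pre : List V} {c m : ℕ} (D : GD S s pre c m)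

/-- The common domain of two charts. -/
def Z (i j : ℕ) : Finset V := Vp pre \ (D.T i ∪ D.T j)

theorem mem_Z {i j : ℕ} {x : V} : x ∈ D.Z i j ↔ x ∈ Vp pre ∧ x ∉ D.T i ∧ x ∉ D.T j := by
  rw [Z, mem_sdiff, mem_union]
  tauto

theorem Em_Z {i j : ℕ} (hi : i < m) (hj : j < m) : D.Em ⊆ D.Z i j := by
  intro x hx
  rw [mem_Z]
  exact ⟨D.Em_sub hx, disjoint_left.1 (D.Em_disj i hi) hx, disjoint_left.1 (D.Em_disj j hj) hx⟩

theorem Ep_Z {i j : ℕ} (hi : i < m) (hj : j < m) : D.Ep ⊆ D.Z i j := by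
  intro x hx
  rw [mem_Z]
  exact ⟨D.Ep_sub hx, disjoint_left.1 (D.Ep_disj i hi) hx, disjoint_left.1 (D.Ep_disj j hj) hx⟩

/-- Elements of the other exceptional sets are not in the ends. -/
theorem cnt_T {i j l : ℕ} (hi : i < m) (hj : j < m) (hl : l < m) (hil : i ≠ l) {t : V}
    (ht : t ∈ D.T l) (htV : t ∈ Vp pre) :
    c ≤ cnt (D.ρ i) (D.Z i j) t ∧ c ≤ cnt (nr (D.ρ i)) (D.Z i j) t := by
  constructor
  · have h1 : D.Em ⊆ (D.Z i j).filter fun y => D.ρ i y < D.ρ i t := by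
      intro e he
      rw [mem_filter]
      exact ⟨D.Em_Z hi hj he, D.low i hi l hl hil t ht htV e he⟩
    have h2 := card_le_card h1
    have h3 := D.Em_card
    unfold cnt
    omega
  · have h1 : D.Ep ⊆ (D.Z i j).filter fun y => nr (D.ρ i) y < nr (D.ρ i) t := by
      intro e he
      rw [mem_filter]
      exact ⟨D.Ep_Z hi hj he, nr_lt.2 (D.high i hi l hl hil t ht htV e he)⟩
    have h2 := card_le_card h1
    have h3 := D.Ep_card
    unfold cnt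
    omega

/-- Concordance for pairs with an element of an exceptional set. -/
theorem conc_T {i j l : ℕ} (hi : i < m) (hj : j < m) (hl : l < m) (hij : i ≠ j) {u v : V}
    (hu : u ∈ D.Z i j) (hv : v ∈ D.Z i j) (h : u ∈ D.T l ∨ v ∈ D.T l) :
    D.ρ i u < D.ρ i v ↔ D.ρ j u < D.ρ j v := by
  have key : ∀ x ∈ D.Z i j, ∀ y ∈ D.Z i j, (x ∈ D.T l ∨ y ∈ D.T l) →
      D.ρ i x < D.ρ i y → ¬ D.ρ j y < D.ρ j x := by
    intro x hx y hy hxy h1 h2
    have hE := D.conc i hi j hj hij x hx y hy h1 h2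
    have hx' := (D.mem_Z).1 hx
    have hy' := (D.mem_Z).1 hy
    rcases hxy with hT | hT
    · have hil : i ≠ l := by rintro rfl; exact hx'.2.1 hT
      have := D.cnt_T (j := j) hi hj hl hil hT hx'.1
      rcases hE with h3 | h3
      · exact absurd h3.1 (not_lt.2 this.1)
      · exact absurd h3.1 (not_lt.2 this.2)
    · have hil : i ≠ l := by rintro rfl; exact hy'.2.1 hT
      have := D.cnt_T (j := j) hi hj hl hil hT hy'.1
      rcases hE with h3 | h3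
      · exact absurd h3.2 (not_lt.2 this.1)
      · exact absurd h3.2 (not_lt.2 this.2)
  by_cases huv : u = v
  · subst huv
    simp
  constructor
  · intro h1
    rcases lt_trichotomy (D.ρ j u) (D.ρ j v) with h2 | h2 | h2
    · exact h2
    · exact absurd (D.inj j hj h2) huv
    · exact absurd h2 (key u hu v hv h h1)
  · intro h1
    rcases lt_trichotomy (D.ρ i u) (D.ρ i v) with h2 | h2 | h2
    · exact h2
    · exact absurd (D.inj i hi h2) huv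
    · exact absurd h1 (key v hv u hu h.symm h2)

/-- Among sufficiently many indices there is one whose exceptional set avoids a given list. -/
theorem exists_avoid {I : Finset ℕ} (hI : ∀ i ∈ I, i < m) {l : List V} (h : l.length < I.card) :
    ∃ i ∈ I, ∀ x ∈ l, x ∉ D.T i := by
  by_contra hcon
  push Not at hcon
  have hIne : I.Nonempty := card_pos.1 (by omega)
  obtain ⟨i0, hi0⟩ := hIne
  have : Nonempty V := ⟨(hcon i0 hi0).choose⟩
  choose! f hf using hcon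
  have h1 : I.card ≤ l.toFinset.card := by
    apply card_le_card_of_injOn f
    · intro i hi
      exact mem_coe.2 (List.mem_toFinset.2 (hf i (mem_coe.1 hi)).1)
    · intro i hi j hj hij
      by_contra hne
      have hd := D.disjT i (hI i (mem_coe.1 hi)) j (hI j (mem_coe.1 hj)) hne
      refine disjoint_left.1 hd (hf i (mem_coe.1 hi)).2 ?_
      rw [hij]
      exact (hf j (mem_coe.1 hj)).2
  have h2 := List.toFinset_card_le l
  omega

/-- The glued relation. -/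
def lt (u v : V) : Prop :=
  (u ∉ D.T 0 ∧ v ∉ D.T 0 ∧ D.ρ 0 u < D.ρ 0 v) ∨
  (¬ (u ∉ D.T 0 ∧ v ∉ D.T 0) ∧ u ∉ D.T 1 ∧ v ∉ D.T 1 ∧ D.ρ 1 u < D.ρ 1 v) ∨
  (¬ (u ∉ D.T 0 ∧ v ∉ D.T 0) ∧ ¬ (u ∉ D.T 1 ∧ v ∉ D.T 1) ∧ D.ρ 2 u < D.ρ 2 v)

theorem exists_idx (hm : 3 ≤ m) (u v : V) : ∃ i < 3, u ∉ D.T i ∧ v ∉ D.T i ∧
    (D.lt u v ↔ D.ρ i u < D.ρ i v) ∧ (D.lt v u ↔ D.ρ i v < D.ρ i u) := by
  by_cases h0 : u ∉ D.T 0 ∧ v ∉ D.T 0
  · refine ⟨0, by omega, h0.1, h0.2, ⟨?_, ?_⟩, ⟨?_, ?_⟩⟩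
    · rintro (h | h | h)
      · exact h.2.2
      · exact absurd h0 h.1
      · exact absurd h0 h.1
    · exact fun h => Or.inl ⟨h0.1, h0.2, h⟩
    · rintro (h | h | h)
      · exact h.2.2
      · exact absurd ⟨h0.2, h0.1⟩ h.1
      · exact absurd ⟨h0.2, h0.1⟩ h.1
    · exact fun h => Or.inl ⟨h0.2, h0.1, h⟩
  by_cases h1 : u ∉ D.T 1 ∧ v ∉ D.T 1
  · have h0' : ¬ (v ∉ D.T 0 ∧ u ∉ D.T 0) := fun h => h0 ⟨h.2, h.1⟩
    refine ⟨1, by omega, h1.1, h1.2, ⟨?_, ?_⟩, ⟨?_, ?_⟩⟩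
    · rintro (h | h | h)
      · exact absurd ⟨h.1, h.2.1⟩ h0
      · exact h.2.2.2
      · exact absurd h1 h.2.1
    · exact fun h => Or.inr (Or.inl ⟨h0, h1.1, h1.2, h⟩)
    · rintro (h | h | h)
      · exact absurd ⟨h.1, h.2.1⟩ h0'
      · exact h.2.2.2
      · exact absurd ⟨h1.2, h1.1⟩ h.2.1
    · exact fun h => Or.inr (Or.inl ⟨h0', h1.2, h1.1, h⟩)
  obtain ⟨i, hi, hav⟩ := D.exists_avoid (I := range 3) (fun i hi => by
    rw [mem_range] at hi; omega) (l := [u, v]) (by simp)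
  rw [mem_range] at hi
  have hu := hav u (by simp)
  have hv := hav v (by simp)
  have hi2 : i = 2 := by
    by_contra h
    have : i = 0 ∨ i = 1 := by omega
    rcases this with rfl | rfl
    · exact h0 ⟨hu, hv⟩
    · exact h1 ⟨hu, hv⟩
  subst hi2
  have h0' : ¬ (v ∉ D.T 0 ∧ u ∉ D.T 0) := fun h => h0 ⟨h.2, h.1⟩
  have h1' : ¬ (v ∉ D.T 1 ∧ u ∉ D.T 1) := fun h => h1 ⟨h.2, h.1⟩
  refine ⟨2, by omega, hu, hv, ⟨?_, ?_⟩, ⟨?_, ?_⟩⟩
  · rintro (h | h | h)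
    · exact absurd ⟨h.1, h.2.1⟩ h0
    · exact absurd ⟨h.2.1, h.2.2.1⟩ h1
    · exact h.2.2
  · exact fun h => Or.inr (Or.inr ⟨h0, h1, h⟩)
  · rintro (h | h | h)
    · exact absurd ⟨h.1, h.2.1⟩ h0'
    · exact absurd ⟨h.2.1, h.2.2.1⟩ h1'
    · exact h.2.2
  · exact fun h => Or.inr (Or.inr ⟨h0', h1', h⟩)

theorem lt_zero {u v : V} (hu : u ∉ D.T 0) (hv : v ∉ D.T 0) :
    D.lt u v ↔ D.ρ 0 u < D.ρ 0 v := by
  constructor
  · rintro (h | h | h)
    · exact h.2.2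
    · exact absurd ⟨hu, hv⟩ h.1
    · exact absurd ⟨hu, hv⟩ h.1
  · exact fun h => Or.inl ⟨hu, hv, h⟩

/-- Pairs with an element of an exceptional set are ordered by every chart. -/
theorem lt_iff (hm : 3 ≤ m) {i l : ℕ} (hi : i < m) (hl : l < m) {u v : V} (hu : u ∈ Vp pre)
    (hv : v ∈ Vp pre) (hui : u ∉ D.T i) (hvi : v ∉ D.T i) (h : u ∈ D.T l ∨ v ∈ D.T l) :
    D.lt u v ↔ D.ρ i u < D.ρ i v := by
  obtain ⟨j, hj, huj, hvj, h1, h2⟩ := D.exists_idx hm u v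
  by_cases hij : i = j
  · subst hij; exact h1
  rw [h1]
  exact (D.conc_T hi (by omega) hl hij (D.mem_Z.2 ⟨hu, hui, huj⟩) (D.mem_Z.2 ⟨hv, hvi, hvj⟩) h).symm

theorem lt_tri (hm : 3 ≤ m) {u v : V} (h : u ≠ v) : D.lt u v ∨ D.lt v u := by
  obtain ⟨j, hj, huj, hvj, h1, h2⟩ := D.exists_idx hm u v
  rw [h1, h2]
  rcases lt_trichotomy (D.ρ j u) (D.ρ j v) with h3 | h3 | h3
  · exact Or.inl h3
  · exact absurd (D.inj j (by omega) h3) h
  · exact Or.inr h3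

theorem lt_asymm (hm : 3 ≤ m) {u v : V} (h : D.lt u v) : ¬ D.lt v u := by
  obtain ⟨j, hj, huj, hvj, h1, h2⟩ := D.exists_idx hm u v
  rw [h1] at h
  rw [h2]
  exact h.asymm

theorem lt_irrefl (hm : 3 ≤ m) {u : V} : ¬ D.lt u u := fun h => D.lt_asymm hm h h

/-- Elements of an exceptional set lie above the lower end of another chart. -/
theorem above {i j l : ℕ} (hi : i < m) (hj : j < m) (hl : l < m) (hil : i ≠ l) {t x : V}
    (ht : t ∈ D.T l) (htV : t ∈ Vp pre) (hx : cnt (D.ρ i) (D.Z i j) x < c) :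
    D.ρ i x < D.ρ i t :=
  lt_of_cnt_lt (Y := D.Z i j) (lt_of_lt_of_le hx (D.cnt_T hi hj hl hil ht htV).1)

theorem below {i j l : ℕ} (hi : i < m) (hj : j < m) (hl : l < m) (hil : i ≠ l) {t x : V}
    (ht : t ∈ D.T l) (htV : t ∈ Vp pre) (hx : cnt (nr (D.ρ i)) (D.Z i j) x < c) :
    D.ρ i t < D.ρ i x :=
  nr_lt.1 (lt_of_cnt_lt (Y := D.Z i j) (lt_of_lt_of_le hx (D.cnt_T hi hj hl hil ht htV).2))

theorem lt_trans (hm : 4 ≤ m) {u v w : V} (hu : u ∈ Vp pre) (hv : v ∈ Vp pre) (hw : w ∈ Vp pre)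
    (huv : D.lt u v) (hvw : D.lt v w) : D.lt u w := by
  have hne1 : u ≠ v := by rintro rfl; exact D.lt_irrefl (by omega) huv
  have hne2 : v ≠ w := by rintro rfl; exact D.lt_irrefl (by omega) hvw
  have hne3 : u ≠ w := by rintro rfl; exact D.lt_asymm (by omega) huv hvw
  by_cases h0 : u ∉ D.T 0 ∧ v ∉ D.T 0 ∧ w ∉ D.T 0
  · rw [D.lt_zero h0.1 h0.2.1] at huv
    rw [D.lt_zero h0.2.1 h0.2.2] at hvw
    rw [D.lt_zero h0.1 h0.2.2]
    exact huv.trans hvw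
  -- an index avoiding all three elements
  obtain ⟨i, hi1, hi4, hui, hvi, hwi⟩ : ∃ i, 1 ≤ i ∧ i < 4 ∧ u ∉ D.T i ∧ v ∉ D.T i ∧ w ∉ D.T i := by
    obtain ⟨i, hi, hav⟩ := D.exists_avoid (I := range 4) (fun i hi => by
      rw [mem_range] at hi; omega) (l := [u, v, w]) (by simp)
    rw [mem_range] at hi
    have h1 := hav u (by simp)
    have h2 := hav v (by simp)
    have h3 := hav w (by simp)
    refine ⟨i, ?_, hi, h1, h2, h3⟩
    by_contra h
    have hi0 : i = 0 := by omega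
    subst hi0
    exact h0 ⟨h1, h2, h3⟩
  have him : i < m := by omega
  have h0m : 0 < m := by omega
  have hi0 : i ≠ 0 := by omega
  -- comparison for pairs with an element in T 0
  have cmp : ∀ x ∈ Vp pre, ∀ y ∈ Vp pre, x ∉ D.T i → y ∉ D.T i → (x ∈ D.T 0 ∨ y ∈ D.T 0) →
      (D.lt x y ↔ D.ρ i x < D.ρ i y) := fun x hx y hy hxi hyi h =>
    D.lt_iff (by omega) him h0m hx hy hxi hyi h
  -- comparison for other pairs
  have cmp2 : ∀ x ∈ Vp pre, ∀ y ∈ Vp pre, x ∉ D.T i → y ∉ D.T i → x ∉ D.T 0 → y ∉ D.T 0 →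
      D.lt x y → x ≠ y → D.ρ i x < D.ρ i y ∨ ∀ t ∈ D.T 0, t ∈ Vp pre →
        (D.ρ i x < D.ρ i t ∧ D.ρ i y < D.ρ i t) ∨ (D.ρ i t < D.ρ i x ∧ D.ρ i t < D.ρ i y) := by
    intro x hx y hy hxi hyi hx0 hy0 hxy hne
    rw [D.lt_zero hx0 hy0] at hxy
    rcases lt_trichotomy (D.ρ i x) (D.ρ i y) with h1 | h1 | h1
    · exact Or.inl h1
    · exact absurd (D.inj i him h1) hne
    · right
      have hE := D.conc i him 0 h0m hi0 y (D.mem_Z.2 ⟨hy, hyi, hy0⟩) x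
        (D.mem_Z.2 ⟨hx, hxi, hx0⟩) h1 hxy
      intro t ht htV
      rcases hE with hE | hE
      · exact Or.inl ⟨D.above him h0m h0m hi0 ht htV hE.2, D.above him h0m h0m hi0 ht htV hE.1⟩
      · exact Or.inr ⟨D.below him h0m h0m hi0 ht htV hE.2, D.below him h0m h0m hi0 ht htV hE.1⟩
  by_cases hu0 : u ∈ D.T 0
  · rw [cmp u hu w hw hui hwi (Or.inl hu0)]
    rw [cmp u hu v hv hui hvi (Or.inl hu0)] at huv
    by_cases h2 : v ∈ D.T 0 ∨ w ∈ D.T 0
    · rw [cmp v hv w hw hvi hwi h2] at hvw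
      exact huv.trans hvw
    · push Not at h2
      rcases cmp2 v hv w hw hvi hwi h2.1 h2.2 hvw hne2 with h3 | h3
      · exact huv.trans h3
      · rcases h3 u hu0 hu with h4 | h4
        · exact absurd huv h4.1.asymm
        · exact h4.2
  by_cases hw0 : w ∈ D.T 0
  · rw [cmp u hu w hw hui hwi (Or.inr hw0)]
    rw [cmp v hv w hw hvi hwi (Or.inr hw0)] at hvw
    by_cases h2 : v ∈ D.T 0
    · rw [cmp u hu v hv hui hvi (Or.inr h2)] at huv
      exact huv.trans hvw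
    · rcases cmp2 u hu v hv hui hvi hu0 h2 huv hne1 with h3 | h3
      · exact h3.trans hvw
      · rcases h3 w hw0 hw with h4 | h4
        · exact h4.1
        · exact absurd hvw h4.2.asymm
  have hv0 : v ∈ D.T 0 := by
    by_contra h
    exact h0 ⟨hu0, h, hw0⟩
  rw [cmp u hu v hv hui hvi (Or.inr hv0)] at huv
  rw [cmp v hv w hw hvi hwi (Or.inl hv0)] at hvw
  -- u, w outside of T 0
  rcases D.lt_tri (by omega) hne3 with h | h
  · exact h
  · exfalso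
    rcases cmp2 w hw u hu hwi hui hw0 hu0 h hne3.symm with h3 | h3
    · exact absurd (huv.trans hvw) h3.asymm
    · rcases h3 v hv0 hv with h4 | h4
      · exact absurd hvw h4.1.asymm
      · exact absurd huv h4.2.asymm

end GD

end Pool.Agent.NH78.Glue
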