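import Pool.Agent.NH78.Glue.Chart

/-!
# Rigidity: two charts agree up to the ends and up to reversal
-/

set_option autoImplicit false
set_option linter.unusedSectionVars false

open Finset

namespace Pool.Agent.NH78.Glue

variable {V : Type} [Fintype V] [DecidableEq V]

/-- The number of elements of `Y` below `u`. -/
def cnt (r : V → ℤ) (Y : Finset V) (u : V) : ℕ := (Y.filter fun y => r y < r u).card

variable {S : Sys V} {s : ℕ} {pre : List V} {Z : Finset V} {r r' : V → ℤ}

theorem tri (hr : Function.Injective r) (hc : Chart S s pre Z r) (hc' : Chart S s pre Z r')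
    (hpn : pre.Nodup) (hpd : ∀ x ∈ pre, x ∉ Z) (hNF : ¬ S.Full s)
    (hNR : ¬ ∀ t, pre.length + t + 1 ≤ s → S.Mv pre.length t 0)
    {Y P M N : Finset V} {u : V}
    (hag : ∀ y ∈ Y, ∀ y' ∈ Y, r y < r y' → r' y < r' y') (hYZ : Y ⊆ Z) (hu : u ∈ Z)
    (hP : ∀ y ∈ P, y ∈ Y ∧ r y < r u ∧ r' y < r' u)
    (hM : ∀ y ∈ M, y ∈ Y ∧ r u < r y ∧ r' y < r' u)
    (hN : ∀ y ∈ N, y ∈ Y ∧ r u < r y ∧ r' u < r' y)
    (htot : 3 * s ≤ P.card + M.card + N.card) :
    M.card = 0 ∨ (P.card < s ∧ M.card < s) ∨ (N.card < s ∧ M.card < s) := by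
  have key : ∀ a t b, a ≤ P.card → t ≤ M.card → b ≤ N.card →
      (a + t + b + 1 ≤ s → S.Mv a t b) ∧
        (pre.length + a + t + b + 1 ≤ s → S.Mv (pre.length + a) t b) :=
    fun a t b ha ht hb => mv_inst hr hc hc' hpn hpd hag hYZ hu hP hM hN ha ht hb
  by_contra hcon
  push Not at hcon
  obtain ⟨h0, h1, h2⟩ := hcon
  by_cases hPs : P.card < s
  · have hMs := h1 hPs
    by_cases hNs : N.card < s
    · apply hNR
      intro t ht
      have := (key 0 t 0 (by omega) (by omega) (by omega)).2 (by omega)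
      simpa using this
    · apply hNF
      intro a b hab
      have e1 := (key 0 a (b + 1) (by omega) (by omega) (by omega)).1 (by omega)
      have e2 := (key 0 (a + 1) b (by omega) (by omega) (by omega)).1 (by omega)
      have := Sys.sw_of_mv e1 e2
      rwa [zero_add] at this
  · by_cases hNs : N.card < s
    · have hMs := h2 hNs
      apply hNF
      intro a b hab
      have e1 := (key (a + 1) b 0 (by omega) (by omega) (by omega)).1 (by omega)
      have e2 := (key a (b + 1) 0 (by omega) (by omega) (by omega)).1 (by omega)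
      exact Sys.sw_of_mv' e1 e2
    · apply hNF
      intro a b hab
      exact Sys.sw_of_mv_one ((key a 1 b (by omega) (by omega) (by omega)).1 (by omega))

theorem agree_symm (hr : Function.Injective r) {Y : Finset V}
    (hag : ∀ y ∈ Y, ∀ y' ∈ Y, r y < r y' → r' y < r' y') :
    ∀ y ∈ Y, ∀ y' ∈ Y, r' y < r' y' → r y < r y' := by
  intro y hy y' hy' h
  rcases lt_trichotomy (r y) (r y') with h1 | h1 | h1
  · exact h1
  · rw [hr h1] at h
    exact absurd h (lt_irrefl _)
  · exact absurd (hag y' hy' y hy h1) (not_lt.2 h.le)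

/-- The position of an element relative to a common increasing set. -/
theorem pos (hr : Function.Injective r) (hr' : Function.Injective r')
    (hc : Chart S s pre Z r) (hc' : Chart S s pre Z r')
    (hpn : pre.Nodup) (hpd : ∀ x ∈ pre, x ∉ Z) (hNF : ¬ S.Full s)
    (hNR : ¬ ∀ t, pre.length + t + 1 ≤ s → S.Mv pre.length t 0) {Y : Finset V}
    (hag : ∀ y ∈ Y, ∀ y' ∈ Y, r y < r y' → r' y < r' y') (hYZ : Y ⊆ Z)
    (hY : 3 * s ≤ Y.card) {u : V} (hu : u ∈ Z) :
    cnt r Y u = cnt r' Y u ∨ (cnt r Y u < 2 * s ∧ cnt r' Y u < 2 * s) ∨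
      (Y.card < cnt r Y u + 2 * s ∧ Y.card < cnt r' Y u + 2 * s) := by
  have hag' := agree_symm hr hag
  by_cases huY : u ∈ Y
  · left
    unfold cnt
    congr 1
    apply filter_congr
    intro y hy
    exact ⟨hag y hy u huY, hag' y hy u huY⟩
  have hne : ∀ y ∈ Y, r y ≠ r u := fun y hy h => huY (hr h ▸ hy)
  have hne' : ∀ y ∈ Y, r' y ≠ r' u := fun y hy h => huY (hr' h ▸ hy)
  obtain ⟨P, hPd⟩ : ∃ P, P = Y.filter fun y => r y < r u ∧ r' y < r' u := ⟨_, rfl⟩
  obtain ⟨M, hMd⟩ : ∃ M, M = Y.filter fun y => r u < r y ∧ r' y < r' u := ⟨_, rfl⟩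
  obtain ⟨M', hMd'⟩ : ∃ M', M' = Y.filter fun y => r y < r u ∧ r' u < r' y := ⟨_, rfl⟩
  obtain ⟨N, hNd⟩ : ∃ N, N = Y.filter fun y => r u < r y ∧ r' u < r' y := ⟨_, rfl⟩
  have hi : cnt r Y u = P.card + M'.card := by
    rw [cnt, hPd, hMd', ← card_union_of_disjoint]
    · congr 1
      ext y
      simp only [mem_filter, mem_union]
      constructor
      · rintro ⟨hy, h⟩
        rcases lt_or_gt_of_ne (hne' y hy) with h' | h'
        · exact Or.inl ⟨hy, h, h'⟩
        · exact Or.inr ⟨hy, h, h'⟩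
      · rintro (⟨hy, h, _⟩ | ⟨hy, h, _⟩) <;> exact ⟨hy, h⟩
    · rw [disjoint_left]
      intro y hy hy'
      rw [mem_filter] at hy hy'
      exact absurd hy.2.2 (not_lt.2 hy'.2.2.le)
  have hj : cnt r' Y u = P.card + M.card := by
    rw [cnt, hPd, hMd, ← card_union_of_disjoint]
    · congr 1
      ext y
      simp only [mem_filter, mem_union]
      constructor
      · rintro ⟨hy, h⟩
        rcases lt_or_gt_of_ne (hne y hy) with h' | h'
        · exact Or.inl ⟨hy, h', h⟩
        · exact Or.inr ⟨hy, h', h⟩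
      · rintro (⟨hy, _, h⟩ | ⟨hy, _, h⟩) <;> exact ⟨hy, h⟩
    · rw [disjoint_left]
      intro y hy hy'
      rw [mem_filter] at hy hy'
      exact absurd hy.2.1 (not_lt.2 hy'.2.1.le)
  have htot : Y.card = P.card + M.card + M'.card + N.card := by
    have h1 : Y.card = cnt r Y u + (Y.filter fun y => ¬ r y < r u).card := by
      rw [cnt, card_filter_add_card_filter_not]
    have h2 : (Y.filter fun y => ¬ r y < r u).card = M.card + N.card := by
      rw [hMd, hNd, ← card_union_of_disjoint]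
      · congr 1
        ext y
        simp only [mem_filter, mem_union]
        constructor
        · rintro ⟨hy, h⟩
          have h3 : r u < r y := lt_of_le_of_ne (not_lt.1 h) (hne y hy).symm
          rcases lt_or_gt_of_ne (hne' y hy) with h' | h'
          · exact Or.inl ⟨hy, h3, h'⟩
          · exact Or.inr ⟨hy, h3, h'⟩
        · rintro (⟨hy, h, _⟩ | ⟨hy, h, _⟩) <;> exact ⟨hy, not_lt.2 h.le⟩
      · rw [disjoint_left]
        intro y hy hy'
        rw [mem_filter] at hy hy'
        exact absurd hy.2.2 (not_lt.2 hy'.2.2.le)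
    rw [h1, hi, h2]
    omega
  have hMM : M.card = 0 ∨ M'.card = 0 := by
    by_contra hcon
    push Not at hcon
    obtain ⟨y, hy⟩ := card_pos.1 (Nat.pos_of_ne_zero hcon.1)
    obtain ⟨y', hy'⟩ := card_pos.1 (Nat.pos_of_ne_zero hcon.2)
    rw [hMd, mem_filter] at hy
    rw [hMd', mem_filter] at hy'
    have h1 := hag y' hy'.1 y hy.1 (hy'.2.1.trans hy.2.1)
    have h2 := hy.2.2.trans hy'.2.2
    exact absurd h1 (not_lt.2 h2.le)
  rcases hMM with h0 | h0
  · have := tri (P := P) (M := M') (N := N) hr' hc' hc hpn hpd hNF hNR hag' hYZ hu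
      (by intro y hy; rw [hPd, mem_filter] at hy; exact ⟨hy.1, hy.2.2, hy.2.1⟩)
      (by intro y hy; rw [hMd', mem_filter] at hy; exact ⟨hy.1, hy.2.2, hy.2.1⟩)
      (by intro y hy; rw [hNd, mem_filter] at hy; exact ⟨hy.1, hy.2.2, hy.2.1⟩) (by omega)
    omega
  · have := tri (P := P) (M := M) (N := N) hr hc hc' hpn hpd hNF hNR hag hYZ hu
      (by intro y hy; rw [hPd, mem_filter] at hy; exact ⟨hy.1, hy.2⟩)
      (by intro y hy; rw [hMd, mem_filter] at hy; exact ⟨hy.1, hy.2⟩)
      (by intro y hy; rw [hNd, mem_filter] at hy; exact ⟨hy.1, hy.2⟩) (by omega)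
    omega

theorem cnt_mono {Y : Finset V} {u v : V} (h : r u ≤ r v) : cnt r Y u ≤ cnt r Y v := by
  apply card_le_card
  intro y hy
  rw [mem_filter] at hy ⊢
  exact ⟨hy.1, lt_of_lt_of_le hy.2 h⟩

theorem cnt_lt {Y : Finset V} {u v : V} (h : r u < r v) (hu : u ∈ Y) :
    cnt r Y u < cnt r Y v := by
  apply card_lt_card
  rw [ssubset_iff_of_subset]
  · exact ⟨u, by rw [mem_filter]; exact ⟨hu, h⟩, by rw [mem_filter]; exact fun h => lt_irrefl _ h.2⟩
  · intro y hy
    rw [mem_filter] at hy ⊢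
    exact ⟨hy.1, hy.2.trans h⟩

/-- Discordant pairs are near the ends of a common increasing set. -/
theorem disc (hr : Function.Injective r) (hr' : Function.Injective r')
    (hc : Chart S s pre Z r) (hc' : Chart S s pre Z r')
    (hpn : pre.Nodup) (hpd : ∀ x ∈ pre, x ∉ Z) (hNF : ¬ S.Full s)
    (hNR : ¬ ∀ t, pre.length + t + 1 ≤ s → S.Mv pre.length t 0) {Y : Finset V}
    (hag : ∀ y ∈ Y, ∀ y' ∈ Y, r y < r y' → r' y < r' y') (hYZ : Y ⊆ Z)
    (hY : 4 * s ≤ Y.card) {u v : V} (hu : u ∈ Z) (hv : v ∈ Z) (huv : r u < r v)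
    (huv' : r' v < r' u) :
    (cnt r Y u < 2 * s ∧ cnt r Y v < 2 * s) ∨
      (Y.card < cnt r Y u + 2 * s ∧ Y.card < cnt r Y v + 2 * s) := by
  have hag' := agree_symm hr hag
  have p1 := pos hr hr' hc hc' hpn hpd hNF hNR hag hYZ (by omega) hu
  have p2 := pos hr hr' hc hc' hpn hpd hNF hNR hag hYZ (by omega) hv
  have m1 := cnt_mono (Y := Y) huv.le
  have m2 := cnt_mono (Y := Y) huv'.le
  by_contra hcon
  push Not at hcon
  -- only the case of equality remains
  have hall : cnt r Y u = cnt r' Y u ∧ cnt r Y v = cnt r' Y v := by omega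
  have he1 : cnt r Y u = cnt r Y v := by omega
  have he2 : cnt r' Y v = cnt r Y u := by omega
  have huY : u ∉ Y := fun h => by
    have := cnt_lt (Y := Y) huv h
    omega
  have hvY : v ∉ Y := fun h => by
    have := cnt_lt (Y := Y) huv' h
    omega
  -- the lower parts coincide
  have hA : (Y.filter fun y => r y < r u) = Y.filter fun y => r' y < r' v := by
    have hor : (Y.filter fun y => r y < r u) ⊆ (Y.filter fun y => r' y < r' v) ∨
        (Y.filter fun y => r' y < r' v) ⊆ (Y.filter fun y => r y < r u) := by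
      by_contra hcon2
      push Not at hcon2
      obtain ⟨⟨y, hy, hy2⟩, ⟨y', hy', hy2'⟩⟩ :=
        And.intro (not_subset.1 hcon2.1) (not_subset.1 hcon2.2)
      rw [mem_filter] at hy hy2 hy' hy2'
      have h1 : r' v ≤ r' y := not_lt.1 fun h => hy2 ⟨hy.1, h⟩
      have h2 : r u ≤ r y' := not_lt.1 fun h => hy2' ⟨hy'.1, h⟩
      have h3 := hag' y' hy'.1 y hy.1 (lt_of_lt_of_le hy'.2 h1)
      exact absurd (h3.trans hy.2) (not_lt.2 h2)
    have hcard : (Y.filter fun y => r y < r u).card = (Y.filter fun y => r' y < r' v).card := by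
      unfold cnt at he2
      exact he2.symm
    rcases hor with h | h
    · exact eq_of_subset_of_card_le h hcard.ge
    · exact (eq_of_subset_of_card_le h hcard.le).symm
  have hB : (Y.filter fun y => r y < r u) = Y.filter fun y => r y < r v := by
    apply eq_of_subset_of_card_le
    · intro y hy
      rw [mem_filter] at hy ⊢
      exact ⟨hy.1, hy.2.trans huv⟩
    · unfold cnt at he1
      exact he1.ge
  have hB' : (Y.filter fun y => r' y < r' v) = Y.filter fun y => r' y < r' u := by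
    apply eq_of_subset_of_card_le
    · intro y hy
      rw [mem_filter] at hy ⊢
      exact ⟨hy.1, hy.2.trans huv'⟩
    · have : cnt r' Y u = cnt r' Y v := by omega
      unfold cnt at this
      exact this.le
  obtain ⟨P, hPd⟩ : ∃ P, P = Y.filter fun y => r y < r u := ⟨_, rfl⟩
  obtain ⟨N, hNd⟩ : ∃ N, N = Y.filter fun y => ¬ r y < r u := ⟨_, rfl⟩
  have hPN : P.card + N.card = Y.card := by
    rw [hPd, hNd, card_filter_add_card_filter_not]
  have hPc : P.card = cnt r Y u := by rw [hPd]; rfl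
  apply hNF
  intro a b hab
  refine sw_inst (P := P) (N := N) hr hc hc' hag hYZ hu hv huv huv' ?_ ?_ (by omega) (by omega) hab
  · intro y hy
    have h1 : y ∈ Y.filter fun y => r y < r u := hPd ▸ hy
    have h2 := h1
    rw [hA] at h2
    rw [mem_filter] at h1 h2
    exact ⟨h1.1, h1.2, h2.2⟩
  · intro y hy
    rw [hNd, mem_filter] at hy
    have h1 : y ∉ Y.filter fun y => r y < r u := fun h => hy.2 (mem_filter.1 h).2
    have h2 : y ∉ Y.filter fun y => r y < r v := hB ▸ h1
    have h3 : y ∉ Y.filter fun y => r' y < r' u := hB' ▸ hA ▸ h1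
    rw [mem_filter] at h2 h3
    have h4 : r v ≤ r y := not_lt.1 fun h => h2 ⟨hy.1, h⟩
    have h5 : r' u ≤ r' y := not_lt.1 fun h => h3 ⟨hy.1, h⟩
    refine ⟨hy.1, lt_of_le_of_ne h4 fun h => hvY ?_, lt_of_le_of_ne h5 fun h => huY ?_⟩
    · rw [hr h]; exact hy.1
    · rw [hr' h]; exact hy.1

end Pool.Agent.NH78.Glue
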