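import Pool.Agent.NH78.Glue.Rigid

/-!
# The rigidity theorem
-/

set_option autoImplicit false
set_option linter.unusedSectionVars false

open Finset

namespace Pool.Agent.NH78.Glue

variable {V : Type} [Fintype V] [DecidableEq V]
variable {S : Sys V} {s : ℕ} {pre : List V} {Z : Finset V} {r r' : V → ℤ}

/-- The reversed ranking. -/
def nr (r : V → ℤ) : V → ℤ := fun x => - r x

theorem nr_inj (hr : Function.Injective r) : Function.Injective (nr r) :=
  fun _ _ h => hr (neg_injective h)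

theorem nr_lt {u v : V} : nr r u < nr r v ↔ r v < r u := neg_lt_neg_iff

theorem cnt_injOn (hr : Function.Injective r) (Y : Finset V) :
    Set.InjOn (cnt r Y) Y := by
  intro u hu v hv h
  rcases lt_trichotomy (r u) (r v) with h1 | h1 | h1
  · exact absurd h (cnt_lt h1 (mem_coe.1 hu)).ne
  · exact hr h1
  · exact absurd h (cnt_lt h1 (mem_coe.1 hv)).ne'

theorem cnt_lt_card {Y : Finset V} {u : V} (hu : u ∈ Y) : cnt r Y u < Y.card := by
  apply card_lt_card
  rw [ssubset_iff_of_subset (filter_subset _ _)]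
  exact ⟨u, hu, by rw [mem_filter]; exact fun h => lt_irrefl _ h.2⟩

theorem card_first (hr : Function.Injective r) {Y : Finset V} {c : ℕ} (hc : c ≤ Y.card) :
    (Y.filter fun u => cnt r Y u < c).card = c := by
  have himg : Y.image (cnt r Y) = range Y.card := by
    apply eq_of_subset_of_card_le
    · intro x hx
      obtain ⟨u, hu, rfl⟩ := mem_image.1 hx
      exact mem_range.2 (cnt_lt_card hu)
    · rw [card_range, card_image_of_injOn (cnt_injOn hr Y)]
  have h1 : (Y.filter fun u => cnt r Y u < c).image (cnt r Y) = range c := by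
    ext x
    rw [mem_image, mem_range]
    constructor
    · rintro ⟨u, hu, rfl⟩
      exact (mem_filter.1 hu).2
    · intro hx
      have : x ∈ Y.image (cnt r Y) := by
        rw [himg, mem_range]; omega
      obtain ⟨u, hu, rfl⟩ := mem_image.1 this
      exact ⟨u, mem_filter.2 ⟨hu, hx⟩, rfl⟩
  have h2 : Set.InjOn (cnt r Y) (Y.filter fun u => cnt r Y u < c : Finset V) := by
    intro x hx y hy h
    exact cnt_injOn hr Y (mem_coe.2 (mem_filter.1 (mem_coe.1 hx)).1)
      (mem_coe.2 (mem_filter.1 (mem_coe.1 hy)).1) h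
  rw [← card_image_of_injOn h2, h1, card_range]

/-- Elements in the ends. -/
def Ends (r : V → ℤ) (Z : Finset V) (c : ℕ) (u v : V) : Prop :=
  (cnt r Z u < c ∧ cnt r Z v < c) ∨ (cnt (nr r) Z u < c ∧ cnt (nr r) Z v < c)

theorem lt_of_cnt_lt {Y : Finset V} {u v : V} (h : cnt r Y u < cnt r Y v) : r u < r v := by
  by_contra hcon
  exact absurd (cnt_mono (Y := Y) (not_lt.1 hcon)) (not_le.2 h)

/-- The count below and the count above. -/
theorem cnt_add (hr : Function.Injective r) {Y : Finset V} {u : V} :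
    cnt r Y u + cnt (nr r) Y u + (if u ∈ Y then 1 else 0) = Y.card := by
  have h1 : Y.card = cnt r Y u + (Y.filter fun y => ¬ r y < r u).card := by
    rw [cnt, card_filter_add_card_filter_not]
  have h2 : (Y.filter fun y => ¬ r y < r u).card =
      cnt (nr r) Y u + (if u ∈ Y then 1 else 0) := by
    by_cases hu : u ∈ Y
    · rw [if_pos hu]
      have : (Y.filter fun y => ¬ r y < r u) = insert u (Y.filter fun y => nr r y < nr r u) := by
        ext y
        rw [mem_filter, mem_insert, mem_filter, nr_lt]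
        constructor
        · rintro ⟨hy, h⟩
          rcases (not_lt.1 h).lt_or_eq with h3 | h3
          · exact Or.inr ⟨hy, h3⟩
          · exact Or.inl (hr h3).symm
        · rintro (rfl | ⟨hy, h⟩)
          · exact ⟨hu, lt_irrefl _⟩
          · exact ⟨hy, not_lt.2 h.le⟩
      rw [this, card_insert_of_notMem]
      · rfl
      · rw [mem_filter]
        exact fun h => lt_irrefl _ h.2
    · rw [if_neg hu, add_zero, cnt]
      congr 1
      apply filter_congr
      intro y hy
      rw [nr_lt, not_lt]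
      refine ⟨fun h => lt_of_le_of_ne h fun h3 => hu ?_, fun h => h.le⟩
      rw [hr h3]; exact hy
  omega

theorem srt_reverse {l : List V} (h : Srt (nr r) l) : Srt r l.reverse := by
  rw [Srt, List.pairwise_reverse]
  exact h.imp fun hab => nr_lt.1 hab

theorem srt_reverse' {l : List V} (h : Srt r l) : Srt (nr r) l.reverse := by
  rw [Srt, List.pairwise_reverse]
  exact h.imp fun hab => nr_lt.2 hab

/-- The reversed ranking is a chart as well. -/
theorem chart_rev (hr : Function.Injective r) {Z' : Finset V}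
    (hc : Chart S s pre Z r) (hc' : Chart S s pre Z' r')
    (hpn : pre.Nodup) (hpd : ∀ x ∈ pre, x ∉ Z') {t : Finset V} (ht : t ⊆ Z) (ht' : t ⊆ Z')
    (hts : s ≤ t.card)
    (hdec : ∀ x ∈ t, ∀ y ∈ t, r x < r y → r' y < r' x) : Chart S s pre Z' (nr r') := by
  -- the pattern
  have hinst : ∀ k, k ≤ t.card → ∃ l0 : List V, l0.length = k ∧ Srt r l0 ∧ Srt r' l0.reverse ∧
      ∀ x ∈ l0, x ∈ t := by
    intro k hk
    obtain ⟨l0, s0, m0, len0⟩ := exists_srt_card hr hk
    refine ⟨l0, len0, s0, ?_, m0⟩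
    rw [Srt, List.pairwise_reverse]
    exact s0.imp_of_mem fun {a b} ha hb hab => hdec a (m0 a ha) b (m0 b hb) hab
  have pat1 : ∀ l : List V, l.Nodup → l.length ≤ s → S.E l l.reverse := by
    intro l hl hls
    obtain ⟨l0, len0, s0, s0', m0⟩ := hinst l.length (by omega)
    have hE := (chart_E hc hc' s0 s0' (List.reverse_perm l0).symm (fun x hx => ht (m0 x hx))
      (fun x hx => ht' (m0 x hx))).1 (by omega)
    obtain ⟨θ, hθ⟩ := exists_map s0.nodup hl len0
    have := S.map θ hE
    rwa [List.map_reverse, hθ] at this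
  have pat2 : ∀ p l : List V, (p ++ l).Nodup → p.length = pre.length →
      pre.length + l.length ≤ s → S.E (p ++ l) (p ++ l.reverse) := by
    intro p l hl hp hls
    obtain ⟨l0, len0, s0, s0', m0⟩ := hinst l.length (by omega)
    have hE := (chart_E hc hc' s0 s0' (List.reverse_perm l0).symm (fun x hx => ht (m0 x hx))
      (fun x hx => ht' (m0 x hx))).2 (by omega)
    have hn0 : (pre ++ l0).Nodup :=
      List.Nodup.append hpn s0.nodup fun x hx hx' => hpd x hx (ht' (m0 x hx'))
    obtain ⟨θ, hθ⟩ := exists_map hn0 hl (by simp [hp, len0])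
    have := S.map θ hE
    rw [List.map_append] at hθ
    obtain ⟨e1, e2⟩ := List.append_inj hθ (by simp [hp])
    rwa [List.map_append, List.map_append, List.map_reverse, e1, e2] at this
  intro l hl hm
  have h1 := hc' l.reverse (srt_reverse hl) (fun x hx => hm x (List.mem_reverse.1 hx))
  rw [List.length_reverse] at h1
  refine ⟨fun hs => ?_, fun hs => ?_⟩
  · have := pat1 l.reverse (List.nodup_reverse.2 hl.nodup) (by rwa [List.length_reverse])
    rw [List.reverse_reverse] at this
    exact S.val_of (h1.1 hs) this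
  · have hn : (pre ++ l.reverse).Nodup :=
      List.Nodup.append hpn (List.nodup_reverse.2 hl.nodup)
        fun x hx hx' => hpd x hx (hm x (List.mem_reverse.1 hx'))
    have := pat2 pre l.reverse hn rfl (by rwa [List.length_reverse])
    rw [List.reverse_reverse] at this
    exact S.val_of (h1.2 hs) this

theorem full_of_pre_inst (hr : Function.Injective r)
    (hc : Chart S s pre Z r) (hc' : Chart S s pre Z r')
    {A B : Finset V} (hA : A ⊆ Z) (hB : B ⊆ Z) (hAs : s ≤ A.card) (hBs : s ≤ B.card)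
    (hdec : ∀ x ∈ A, ∀ y ∈ A, r x < r y → r' y < r' x)
    (hinc : ∀ x ∈ B, ∀ y ∈ B, r x < r y → r' x < r' y)
    (hAB : ∀ x ∈ A, ∀ y ∈ B, r x < r y ∧ r' x < r' y) : S.Full s := by
  apply Sys.full_of_prefix
  intro a b hab α β hn ha hb
  obtain ⟨α0, sα, mα, lα⟩ := exists_srt_card hr (show a ≤ A.card by omega)
  obtain ⟨β0, sβ, mβ, lβ⟩ := exists_srt_card hr (show b ≤ B.card by omega)
  have s1 : Srt r (α0 ++ β0) := by
    rw [Srt, List.pairwise_append]
    exact ⟨sα, sβ, fun x hx y hy => (hAB x (mα x hx) y (mβ y hy)).1⟩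
  have s2 : Srt r' (α0.reverse ++ β0) := by
    rw [Srt, List.pairwise_append, List.pairwise_reverse]
    refine ⟨sα.imp_of_mem fun {a b} ha hb hab => hdec a (mα a ha) b (mα b hb) hab,
      sβ.imp_of_mem fun {a b} ha hb hab => hinc a (mβ a ha) b (mβ b hb) hab, ?_⟩
    intro x hx y hy
    exact (hAB x (mα x (List.mem_reverse.1 hx)) y (mβ y hy)).2
  have hm : ∀ x ∈ α0 ++ β0, x ∈ Z := by
    intro x hx
    rw [List.mem_append] at hx
    rcases hx with hx | hx
    · exact hA (mα x hx)
    · exact hB (mβ x hx)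
  have hE := (chart_E hc hc' s1 s2 ((List.reverse_perm α0).symm.append_right β0) hm hm).1
    (by simp [lα, lβ]; omega)
  obtain ⟨θ, hθ⟩ := exists_map s1.nodup hn (by simp [lα, lβ, ha, hb])
  have := S.map θ hE
  rw [List.map_append] at hθ
  obtain ⟨e1, e2⟩ := List.append_inj hθ (by simp [lα, ha])
  rwa [List.map_append, List.map_append, List.map_reverse, e1, e2] at this

theorem full_of_suf_inst (hr : Function.Injective r)
    (hc : Chart S s pre Z r) (hc' : Chart S s pre Z r')
    {A B : Finset V} (hA : A ⊆ Z) (hB : B ⊆ Z) (hAs : s ≤ A.card) (hBs : s ≤ B.card)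
    (hdec : ∀ x ∈ A, ∀ y ∈ A, r x < r y → r' y < r' x)
    (hinc : ∀ x ∈ B, ∀ y ∈ B, r x < r y → r' x < r' y)
    (hAB : ∀ x ∈ A, ∀ y ∈ B, r y < r x ∧ r' y < r' x) : S.Full s := by
  apply Sys.full_of_suffix
  intro a b hab α β hn ha hb
  obtain ⟨α0, sα, mα, lα⟩ := exists_srt_card hr (show a ≤ A.card by omega)
  obtain ⟨β0, sβ, mβ, lβ⟩ := exists_srt_card hr (show b ≤ B.card by omega)
  have s1 : Srt r (β0 ++ α0) := by
    rw [Srt, List.pairwise_append]
    exact ⟨sβ, sα, fun x hx y hy => (hAB y (mα y hy) x (mβ x hx)).1⟩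
  have s2 : Srt r' (β0 ++ α0.reverse) := by
    rw [Srt, List.pairwise_append, List.pairwise_reverse]
    refine ⟨sβ.imp_of_mem fun {a b} ha hb hab => hinc a (mβ a ha) b (mβ b hb) hab,
      sα.imp_of_mem fun {a b} ha hb hab => hdec a (mα a ha) b (mα b hb) hab, ?_⟩
    intro x hx y hy
    exact (hAB y (mα y (List.mem_reverse.1 hy)) x (mβ x hx)).2
  have hm : ∀ x ∈ β0 ++ α0, x ∈ Z := by
    intro x hx
    rw [List.mem_append] at hx
    rcases hx with hx | hx
    · exact hB (mβ x hx)
    · exact hA (mα x hx)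
  have hE := (chart_E hc hc' s1 s2 ((List.reverse_perm α0).symm.append_left β0) hm hm).1
    (by simp [lα, lβ]; omega)
  obtain ⟨θ, hθ⟩ := exists_map s1.nodup hn (by simp [lα, lβ, ha, hb])
  have := S.map θ hE
  rw [List.map_append] at hθ
  obtain ⟨e1, e2⟩ := List.append_inj hθ (by simp [lβ, hb])
  rwa [List.map_append, List.map_append, List.map_reverse, e1, e2] at this

/-- The increasing case. -/
theorem rigid_inc (hs : 1 ≤ s) (hr : Function.Injective r) (hr' : Function.Injective r')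
    (hc : Chart S s pre Z r) (hc' : Chart S s pre Z r')
    (hpn : pre.Nodup) (hpd : ∀ x ∈ pre, x ∉ Z) (hNF : ¬ S.Full s)
    (hNR : ¬ ∀ t, pre.length + t + 1 ≤ s → S.Mv pre.length t 0) {c : ℕ}
    (hcs : 4 * s * s + 1 ≤ c) (hZ : c ≤ Z.card) {t : Finset V}
    (htZ : t ⊆ Z) (htm : ∀ y ∈ t, c ≤ cnt r Z y ∧ c ≤ cnt (nr r) Z y) (htc : 5 * s < t.card)
    (hag : ∀ x ∈ t, ∀ y ∈ t, r x < r y → r' x < r' y) :
    ∀ u ∈ Z, ∀ v ∈ Z, r u < r v → r' v < r' u → Ends r Z c u v := by
  have hag' := agree_symm hr hag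
  obtain ⟨F, hF⟩ : ∃ F, F = Z.filter fun u => cnt r Z u < c := ⟨_, rfl⟩
  obtain ⟨L, hL⟩ : ∃ L, L = Z.filter fun u => cnt (nr r) Z u < c := ⟨_, rfl⟩
  obtain ⟨Y0, hY0⟩ : ∃ Y0, Y0 = t.filter fun y => 2 * s ≤ cnt r t y ∧ 2 * s ≤ cnt (nr r) t y :=
    ⟨_, rfl⟩
  have hFZ : F ⊆ Z := hF ▸ filter_subset _ _
  have hLZ : L ⊆ Z := hL ▸ filter_subset _ _
  have hYt : Y0 ⊆ t := hY0 ▸ filter_subset _ _
  have hFc : F.card = c := by rw [hF]; exact card_first hr hZ
  have hLc : L.card = c := by rw [hL]; exact card_first (nr_inj hr) hZ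
  -- the size of Y0
  have hYc : s ≤ Y0.card := by
    have h1 : t.card ≤ Y0.card + ((t.filter fun y => cnt r t y < 2 * s).card +
        (t.filter fun y => cnt (nr r) t y < 2 * s).card) := by
      have : t ⊆ Y0 ∪ ((t.filter fun y => cnt r t y < 2 * s) ∪
          (t.filter fun y => cnt (nr r) t y < 2 * s)) := by
        intro y hy
        rw [mem_union, mem_union, mem_filter, mem_filter, hY0, mem_filter]
        by_cases h1 : cnt r t y < 2 * s
        · exact Or.inr (Or.inl ⟨hy, h1⟩)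
        · by_cases h2 : cnt (nr r) t y < 2 * s
          · exact Or.inr (Or.inr ⟨hy, h2⟩)
          · exact Or.inl ⟨hy, not_lt.1 h1, not_lt.1 h2⟩
      exact (card_le_card this).trans ((card_union_le _ _).trans
        (Nat.add_le_add_left (card_union_le _ _) _))
    rw [card_first hr (by omega), card_first (nr_inj hr) (by omega)] at h1
    omega
  have hcnt : ∀ y ∈ t, cnt r' t y = cnt r t y := by
    intro y hy
    unfold cnt
    congr 1
    apply filter_congr
    intro x hx
    exact ⟨hag' x hx y hy, hag x hx y hy⟩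
  have hFt : ∀ u ∈ F, ∀ y ∈ t, r u < r y := by
    intro u hu y hy
    rw [hF, mem_filter] at hu
    exact lt_of_cnt_lt (Y := Z) (lt_of_lt_of_le hu.2 (htm y hy).1)
  have hLt : ∀ u ∈ L, ∀ y ∈ t, r y < r u := by
    intro u hu y hy
    rw [hL, mem_filter] at hu
    exact nr_lt.1 (lt_of_cnt_lt (Y := Z) (lt_of_lt_of_le hu.2 (htm y hy).2))
  have hFY : ∀ u ∈ F, ∀ y ∈ Y0, r' u < r' y := by
    intro u hu y hy
    have h0 : cnt r t u = 0 := by
      rw [cnt, card_eq_zero, filter_eq_empty_iff]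
      intro y hy
      exact not_lt.2 (hFt u hu y hy).le
    have h1 := pos hr hr' hc hc' hpn hpd hNF hNR hag htZ (by omega) (hFZ hu)
    rw [hY0, mem_filter] at hy
    by_contra hcon
    have h2 := cnt_mono (Y := t) (not_lt.1 hcon)
    rw [hcnt y hy.1] at h2
    omega
  have hLY : ∀ u ∈ L, ∀ y ∈ Y0, r' y < r' u := by
    intro u hu y hy
    have hut : u ∉ t := fun h => lt_irrefl _ (hLt u hu u h)
    have h0 : cnt r t u = t.card := by
      rw [cnt, filter_true_of_mem]
      intro y hy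
      exact hLt u hu y hy
    have h1 := pos hr hr' hc hc' hpn hpd hNF hNR hag htZ (by omega) (hLZ hu)
    rw [hY0, mem_filter] at hy
    by_contra hcon
    have h2 := cnt_mono (Y := t) (not_lt.1 hcon)
    rw [hcnt y hy.1] at h2
    have h3 := cnt_add hr (Y := t) (u := y)
    rw [if_pos hy.1] at h3
    omega
  -- monotone subsets in the ends
  have hsq : (2 * s) * (2 * s) < c := by nlinarith
  obtain ⟨F', hF'F, hF'c, hF'm⟩ := es hr hr' (W := F) (m := 2 * s) (by rwa [hFc])
  obtain ⟨L', hL'L, hL'c, hL'm⟩ := es hr hr' (W := L) (m := 2 * s) (by rwa [hLc])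
  have hYag : ∀ x ∈ Y0, ∀ y ∈ Y0, r x < r y → r' x < r' y :=
    fun x hx y hy h => hag x (hYt hx) y (hYt hy) h
  have hF'inc : ∀ x ∈ F', ∀ y ∈ F', r x < r y → r' x < r' y := by
    rcases hF'm with h | h
    · exact h
    · exfalso
      exact hNF (full_of_pre_inst hr hc hc' (hF'F.trans hFZ) (hYt.trans htZ) (by omega) hYc h hYag
        fun x hx y hy => ⟨hFt x (hF'F hx) y (hYt hy), hFY x (hF'F hx) y hy⟩)
  have hL'inc : ∀ x ∈ L', ∀ y ∈ L', r x < r y → r' x < r' y := by
    rcases hL'm with h | h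
    · exact h
    · exfalso
      exact hNF (full_of_suf_inst hr hc hc' (hL'L.trans hLZ) (hYt.trans htZ) (by omega) hYc h hYag
        fun x hx y hy => ⟨hLt x (hL'L hx) y (hYt hy), hLY x (hL'L hx) y hy⟩)
  obtain ⟨y0, hy0⟩ := card_pos.1 (show 0 < Y0.card by omega)
  have hFL : ∀ x ∈ F', ∀ y ∈ L', r x < r y ∧ r' x < r' y := fun x hx y hy =>
    ⟨(hFt x (hF'F hx) y0 (hYt hy0)).trans (hLt y (hL'L hy) y0 (hYt hy0)),
      (hFY x (hF'F hx) y0 hy0).trans (hLY y (hL'L hy) y0 hy0)⟩
  obtain ⟨Y, hYd⟩ : ∃ Y, Y = F' ∪ Y0 ∪ L' := ⟨_, rfl⟩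
  have hYZ : Y ⊆ Z := by
    rw [hYd]
    exact union_subset (union_subset (hF'F.trans hFZ) (hYt.trans htZ)) (hL'L.trans hLZ)
  have hYag2 : ∀ x ∈ Y, ∀ y ∈ Y, r x < r y → r' x < r' y := by
    intro x hx y hy hxy
    rw [hYd, mem_union, mem_union] at hx hy
    rcases hx with (hx | hx) | hx <;> rcases hy with (hy | hy) | hy
    · exact hF'inc x hx y hy hxy
    · exact hFY x (hF'F hx) y hy
    · exact (hFL x hx y hy).2
    · exact absurd hxy (not_lt.2 (hFt y (hF'F hy) x (hYt hx)).le)
    · exact hYag x hx y hy hxy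
    · exact hLY y (hL'L hy) x hx
    · exact absurd hxy (not_lt.2 (hFL y hy x hx).1.le)
    · exact absurd hxy (not_lt.2 (hLt x (hL'L hx) y (hYt hy)).le)
    · exact hL'inc x hx y hy hxy
  have hdisj : Disjoint F' L' := by
    rw [disjoint_left]
    intro x hx hx'
    exact lt_irrefl _ (hFL x hx x hx').1
  have hYcard : 4 * s ≤ Y.card := by
    have : F' ∪ L' ⊆ Y := by
      rw [hYd]
      intro x hx
      rw [mem_union] at hx
      rw [mem_union, mem_union]
      tauto
    have h1 := card_le_card this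
    rw [card_union_of_disjoint hdisj] at h1
    omega
  intro u hu v hv huv huv'
  have hlow : ∀ w ∈ Z, cnt r Y w < 2 * s → cnt r Z w < c := by
    intro w hw h
    by_contra hcon
    have : F' ⊆ Y.filter fun y => r y < r w := by
      intro x hx
      rw [mem_filter]
      refine ⟨by rw [hYd, mem_union, mem_union]; exact Or.inl (Or.inl hx), ?_⟩
      have hxF := hF'F hx
      rw [hF, mem_filter] at hxF
      exact lt_of_cnt_lt (Y := Z) (by omega)
    have h2 := card_le_card this
    unfold cnt at h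
    omega
  have hhigh : ∀ w ∈ Z, Y.card < cnt r Y w + 2 * s → cnt (nr r) Z w < c := by
    intro w hw h
    by_contra hcon
    have h3 : L' ⊆ Y.filter fun y => nr r y < nr r w := by
      intro x hx
      rw [mem_filter]
      refine ⟨by rw [hYd, mem_union]; exact Or.inr hx, ?_⟩
      have hxL := hL'L hx
      rw [hL, mem_filter] at hxL
      exact lt_of_cnt_lt (Y := Z) (by omega)
    have h2 := card_le_card h3
    have h4 := cnt_add hr (Y := Y) (u := w)
    have h5 : cnt (nr r) Y w = (Y.filter fun y => nr r y < nr r w).card := rfl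
    omega
  rcases disc hr hr' hc hc' hpn hpd hNF hNR hYag2 hYZ hYcard hu hv huv huv' with h | h
  · exact Or.inl ⟨hlow u hu h.1, hlow v hv h.2⟩
  · exact Or.inr ⟨hhigh u hu h.1, hhigh v hv h.2⟩

/-- Rigidity. -/
theorem rigid (hs : 1 ≤ s) (hr : Function.Injective r) (hr' : Function.Injective r')
    {Z' : Finset V} (hZZ' : Z ⊆ Z')
    (hc : Chart S s pre Z r) (hc' : Chart S s pre Z' r')
    (hpn : pre.Nodup) (hpd : ∀ x ∈ pre, x ∉ Z') (hNF : ¬ S.Full s)
    (hNR : ¬ ∀ t, pre.length + t + 1 ≤ s → S.Mv pre.length t 0) {c : ℕ}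
    (hcs : 4 * s * s + 1 ≤ c) (hZ : 2 * c + 25 * s * s < Z.card) :
    (∀ u ∈ Z, ∀ v ∈ Z, r u < r v → r' v < r' u → Ends r Z c u v) ∨
      (Chart S s pre Z' (nr r') ∧
        ∀ u ∈ Z, ∀ v ∈ Z, r u < r v → r' u < r' v → Ends r Z c u v) := by
  have hpd' : ∀ x ∈ pre, x ∉ Z := fun x hx h => hpd x hx (hZZ' h)
  obtain ⟨W, hW⟩ : ∃ W, W = Z.filter fun u => c ≤ cnt r Z u ∧ c ≤ cnt (nr r) Z u := ⟨_, rfl⟩
  have hWZ : W ⊆ Z := hW ▸ filter_subset _ _
  have hWc : (5 * s) * (5 * s) < W.card := by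
    have h1 : Z.card ≤ W.card + ((Z.filter fun y => cnt r Z y < c).card +
        (Z.filter fun y => cnt (nr r) Z y < c).card) := by
      have : Z ⊆ W ∪ ((Z.filter fun y => cnt r Z y < c) ∪
          (Z.filter fun y => cnt (nr r) Z y < c)) := by
        intro y hy
        rw [mem_union, mem_union, mem_filter, mem_filter, hW, mem_filter]
        by_cases h1 : cnt r Z y < c
        · exact Or.inr (Or.inl ⟨hy, h1⟩)
        · by_cases h2 : cnt (nr r) Z y < c
          · exact Or.inr (Or.inr ⟨hy, h2⟩)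
          · exact Or.inl ⟨hy, not_lt.1 h1, not_lt.1 h2⟩
      exact (card_le_card this).trans ((card_union_le _ _).trans
        (Nat.add_le_add_left (card_union_le _ _) _))
    rw [card_first hr (by omega), card_first (nr_inj hr) (by omega)] at h1
    nlinarith
  obtain ⟨t, htW, htc, htm⟩ := es hr hr' hWc
  have htmid : ∀ y ∈ t, c ≤ cnt r Z y ∧ c ≤ cnt (nr r) Z y := by
    intro y hy
    have := htW hy
    rw [hW, mem_filter] at this
    exact this.2
  rcases htm with h | h
  · exact Or.inl (rigid_inc hs hr hr' hc (hc'.mono hZZ') hpn hpd' hNF hNR hcs (by omega)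
      (htW.trans hWZ) htmid htc h)
  · have hcr := chart_rev hr hc hc' hpn hpd (htW.trans hWZ) ((htW.trans hWZ).trans hZZ')
      (by omega) h
    refine Or.inr ⟨hcr, ?_⟩
    intro u hu v hv huv huv'
    exact rigid_inc hs hr (nr_inj hr') hc (hcr.mono hZZ') hpn hpd' hNF hNR hcs (by omega)
      (htW.trans hWZ) htmid htc (fun x hx y hy hxy => nr_lt.2 (h x hx y hy hxy)) u hu v hv huv
      (nr_lt.2 huv')

end Pool.Agent.NH78.Glue
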