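import Pool.Agent.NH78.Glue.Glue

/-!
# The glued order is valid
-/

set_option autoImplicit false
set_option linter.unusedSectionVars false

open Finset

namespace Pool.Agent.NH78.Glue

variable {V : Type} [Fintype V] [DecidableEq V]

/-- The number of elements away from the ends. -/
theorem card_mid {r : V → ℤ} (hr : Function.Injective r) {Z : Finset V} {c k : ℕ}
    (h : 2 * c + k ≤ Z.card) :
    k ≤ (Z.filter fun u => c ≤ cnt r Z u ∧ c ≤ cnt (nr r) Z u).card := by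
  have h1 : Z.card ≤ (Z.filter fun u => c ≤ cnt r Z u ∧ c ≤ cnt (nr r) Z u).card +
      ((Z.filter fun y => cnt r Z y < c).card + (Z.filter fun y => cnt (nr r) Z y < c).card) := by
    have : Z ⊆ (Z.filter fun u => c ≤ cnt r Z u ∧ c ≤ cnt (nr r) Z u) ∪
        ((Z.filter fun y => cnt r Z y < c) ∪ (Z.filter fun y => cnt (nr r) Z y < c)) := by
      intro y hy
      rw [mem_union, mem_union, mem_filter, mem_filter, mem_filter]
      by_cases h1 : cnt r Z y < c
      · exact Or.inr (Or.inl ⟨hy, h1⟩)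
      · by_cases h2 : cnt (nr r) Z y < c
        · exact Or.inr (Or.inr ⟨hy, h2⟩)
        · exact Or.inl ⟨hy, not_lt.1 h1, not_lt.1 h2⟩
    exact (card_le_card this).trans ((card_union_le _ _).trans
      (Nat.add_le_add_left (card_union_le _ _) _))
  rw [card_first hr (by omega), card_first (nr_inj hr) (by omega)] at h1
  omega

namespace GD

variable {S : Sys V} {s : ℕ} {pre : List V} {c m : ℕ} (D : GD S s pre c m)

theorem card_Z {i j : ℕ} (hi : i < m) (hj : j < m) : (Vp pre).card ≤ (D.Z i j).card + 6 := by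
  have h1 := card_le_card_sdiff_add_card (s := Vp pre) (t := D.T i ∪ D.T j)
  have h2 := card_union_le (D.T i) (D.T j)
  have h3 := D.cardT i hi
  have h4 := D.cardT j hj
  unfold Z
  omega

/-- Comparison of the glued order with a chart, away from the ends. -/
theorem cmp (hm : 4 ≤ m) {i : ℕ} (hi : i < m) (hi0 : i ≠ 0) {x y : V} (hx : x ∈ Vp pre)
    (hy : y ∈ Vp pre) (hxi : x ∉ D.T i) (hyi : y ∉ D.T i)
    (h1 : ¬ (cnt (D.ρ i) (D.Z i 0) x < c ∧ cnt (D.ρ i) (D.Z i 0) y < c))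
    (h2 : ¬ (cnt (nr (D.ρ i)) (D.Z i 0) x < c ∧ cnt (nr (D.ρ i)) (D.Z i 0) y < c)) :
    D.lt x y ↔ D.ρ i x < D.ρ i y := by
  have h0m : 0 < m := by omega
  by_cases hT : x ∈ D.T 0 ∨ y ∈ D.T 0
  · exact D.lt_iff (by omega) hi h0m hx hy hxi hyi hT
  push Not at hT
  have hxZ : x ∈ D.Z i 0 := D.mem_Z.2 ⟨hx, hxi, hT.1⟩
  have hyZ : y ∈ D.Z i 0 := D.mem_Z.2 ⟨hy, hyi, hT.2⟩
  rw [D.lt_zero hT.1 hT.2]
  constructor
  · intro h
    rcases lt_trichotomy (D.ρ i x) (D.ρ i y) with h3 | h3 | h3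
    · exact h3
    · rw [D.inj i hi h3] at h
      exact absurd h (_root_.lt_irrefl _)
    · exfalso
      rcases D.conc i hi 0 h0m hi0 y hyZ x hxZ h3 h with h4 | h4
      · exact h1 ⟨h4.2, h4.1⟩
      · exact h2 ⟨h4.2, h4.1⟩
  · intro h
    rcases lt_trichotomy (D.ρ 0 x) (D.ρ 0 y) with h3 | h3 | h3
    · exact h3
    · rw [D.inj 0 h0m h3] at h
      exact absurd h (_root_.lt_irrefl _)
    · exfalso
      rcases D.conc i hi 0 h0m hi0 x hxZ y hyZ h h3 with h4 | h4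
      · exact h1 h4
      · exact h2 h4

theorem nodup_of_lt (hm : 3 ≤ m) {l : List V} (h : l.Pairwise D.lt) : l.Nodup :=
  List.Pairwise.imp (fun hab => by rintro rfl; exact D.lt_irrefl hm hab) h

theorem lt_unique (hm : 3 ≤ m) {l l' : List V} (h : l.Pairwise D.lt) (h' : l'.Pairwise D.lt)
    (hmem : ∀ x, x ∈ l ↔ x ∈ l') : l = l' := by
  apply List.Perm.eq_of_pairwise (le := D.lt) _ h h'
  · rw [List.perm_ext_iff_of_nodup (D.nodup_of_lt hm h) (D.nodup_of_lt hm h')]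
    exact hmem
  · intro x y _ _ h1 h2
    exact absurd h2 (D.lt_asymm hm h1)

theorem valid (hms : s + 2 ≤ m) (hm : 4 ≤ m) (hpn : pre.Nodup)
    (hV : 2 * c + s + 6 ≤ (Vp pre).card) {l : List V} (hl : l.Pairwise D.lt)
    (hmem : ∀ x ∈ l, x ∈ Vp pre) :
    (l.length ≤ s → S.Val l) ∧ (pre.length + l.length ≤ s → S.Val (pre ++ l)) := by
  classical
  by_cases hls : l.length ≤ s
  swap
  · exact ⟨fun h => absurd h hls, fun h => absurd (by omega) hls⟩
  have h0m : 0 < m := by omega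
  by_cases h0 : ∀ x ∈ l, x ∉ D.T 0
  · have hs : Srt (D.ρ 0) l :=
      hl.imp_of_mem fun {a b} ha hb hab => (D.lt_zero (h0 _ ha) (h0 _ hb)).1 hab
    exact D.chart 0 h0m l hs fun x hx => mem_sdiff.2 ⟨hmem x hx, h0 x hx⟩
  push Not at h0
  obtain ⟨t0, ht0l, ht0⟩ := h0
  obtain ⟨i, hi, hav⟩ := D.exists_avoid (I := Ico 1 m) (fun i hi => (mem_Ico.1 hi).2) (l := l)
    (by rw [Nat.card_Ico]; omega)
  rw [mem_Ico] at hi
  have him : i < m := hi.2
  have hi0 : i ≠ 0 := by omega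
  obtain ⟨Z, hZ⟩ : ∃ Z, Z = D.Z i 0 := ⟨_, rfl⟩
  obtain ⟨ri, hri⟩ : ∃ ri, ri = D.ρ i := ⟨_, rfl⟩
  have hriI : Function.Injective ri := hri ▸ D.inj i him
  have hr0I : Function.Injective (D.ρ 0) := D.inj 0 h0m
  have hT : ∀ t ∈ D.T 0, t ∈ Vp pre → c ≤ cnt ri Z t ∧ c ≤ cnt (nr ri) Z t := by
    intro t ht htV
    rw [hri, hZ]
    exact D.cnt_T him h0m h0m hi0 ht htV
  have hcmp : ∀ x ∈ Vp pre, ∀ y ∈ Vp pre, x ∉ D.T i → y ∉ D.T i →
      ¬ (cnt ri Z x < c ∧ cnt ri Z y < c) → ¬ (cnt (nr ri) Z x < c ∧ cnt (nr ri) Z y < c) →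
      (D.lt x y ↔ ri x < ri y) := by
    intro x hx y hy hxi hyi h1 h2
    rw [hri, hZ] at h1 h2
    rw [hri]
    exact D.cmp hm him hi0 hx hy hxi hyi h1 h2
  obtain ⟨ct1, ct2⟩ := hT t0 ht0 (hmem t0 ht0l)
  obtain ⟨A, hA⟩ : ∃ A, A = l.filter fun x => decide (cnt ri Z x < c) := ⟨_, rfl⟩
  obtain ⟨C, hC⟩ : ∃ C, C = l.filter fun x => decide (cnt (nr ri) Z x < c) := ⟨_, rfl⟩
  obtain ⟨μ, hμ⟩ : ∃ μ, μ = l.filter fun x => decide (c ≤ cnt ri Z x ∧ c ≤ cnt (nr ri) Z x) :=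
    ⟨_, rfl⟩
  have mA : ∀ x, x ∈ A ↔ x ∈ l ∧ cnt ri Z x < c := by
    intro x; rw [hA, List.mem_filter, decide_eq_true_iff]
  have mC : ∀ x, x ∈ C ↔ x ∈ l ∧ cnt (nr ri) Z x < c := by
    intro x; rw [hC, List.mem_filter, decide_eq_true_iff]
  have mμ : ∀ x, x ∈ μ ↔ x ∈ l ∧ c ≤ cnt ri Z x ∧ c ≤ cnt (nr ri) Z x := by
    intro x; rw [hμ, List.mem_filter, decide_eq_true_iff]
  have pA : A.Pairwise D.lt := hA ▸ hl.filter _
  have pC : C.Pairwise D.lt := hC ▸ hl.filter _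
  have pμ : μ.Pairwise D.lt := hμ ▸ hl.filter _
  -- low and high elements
  have At : ∀ x, cnt ri Z x < c → ri x < ri t0 := fun x hx =>
    lt_of_cnt_lt (Y := Z) (lt_of_lt_of_le hx ct1)
  have Ct : ∀ x, cnt (nr ri) Z x < c → ri t0 < ri x := fun x hx =>
    nr_lt.1 (lt_of_cnt_lt (Y := Z) (lt_of_lt_of_le hx ct2))
  have AC : ∀ x y, cnt ri Z x < c → cnt (nr ri) Z y < c → ri x < ri y :=
    fun x y hx hy => (At x hx).trans (Ct y hy)
  have Aμ : ∀ x y, cnt ri Z x < c → c ≤ cnt ri Z y → ri x < ri y := fun x y hx hy =>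
    lt_of_cnt_lt (Y := Z) (lt_of_lt_of_le hx hy)
  have μC : ∀ x y, c ≤ cnt (nr ri) Z x → cnt (nr ri) Z y < c → ri x < ri y := fun x y hx hy =>
    nr_lt.1 (lt_of_cnt_lt (Y := Z) (lt_of_lt_of_le hy hx))
  have ncAC : ∀ x, cnt ri Z x < c → cnt (nr ri) Z x < c → False := fun x h1 h2 =>
    _root_.lt_irrefl _ (AC x x h1 h2)
  -- comparison of different kinds
  have ltAμ : ∀ x y, x ∈ Vp pre → y ∈ Vp pre → x ∉ D.T i → y ∉ D.T i → cnt ri Z x < c →
      c ≤ cnt ri Z y ∧ c ≤ cnt (nr ri) Z y → D.lt x y := by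
    intro x y hx hy hxi hyi h1 h2
    refine (hcmp x hx y hy hxi hyi ?_ ?_).2 (Aμ x y h1 h2.1)
    · exact fun h => absurd h.2 (not_lt.2 h2.1)
    · exact fun h => absurd h.2 (not_lt.2 h2.2)
  have ltμC : ∀ x y, x ∈ Vp pre → y ∈ Vp pre → x ∉ D.T i → y ∉ D.T i →
      c ≤ cnt ri Z x ∧ c ≤ cnt (nr ri) Z x → cnt (nr ri) Z y < c → D.lt x y := by
    intro x y hx hy hxi hyi h1 h2
    refine (hcmp x hx y hy hxi hyi ?_ ?_).2 (μC x y h1.2 h2)
    · exact fun h => absurd h.1 (not_lt.2 h1.1)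
    · exact fun h => absurd h.1 (not_lt.2 h1.2)
  have ltAC : ∀ x y, x ∈ Vp pre → y ∈ Vp pre → x ∉ D.T i → y ∉ D.T i →
      cnt ri Z x < c → cnt (nr ri) Z y < c → D.lt x y := by
    intro x y hx hy hxi hyi h1 h2
    refine (hcmp x hx y hy hxi hyi ?_ ?_).2 (AC x y h1 h2)
    · exact fun h => ncAC y h.2 h2
    · exact fun h => ncAC x h1 h.1
  have ltμμ : ∀ x y, x ∈ Vp pre → y ∈ Vp pre → x ∉ D.T i → y ∉ D.T i →
      c ≤ cnt ri Z x ∧ c ≤ cnt (nr ri) Z x → c ≤ cnt ri Z y ∧ c ≤ cnt (nr ri) Z y →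
      (D.lt x y ↔ ri x < ri y) := by
    intro x y hx hy hxi hyi h1 h2
    refine hcmp x hx y hy hxi hyi ?_ ?_
    · exact fun h => absurd h.1 (not_lt.2 h1.1)
    · exact fun h => absurd h.1 (not_lt.2 h1.2)
  have hpw : (A ++ (μ ++ C)).Pairwise D.lt := by
    rw [List.pairwise_append, List.pairwise_append]
    refine ⟨pA, ⟨pμ, pC, ?_⟩, ?_⟩
    · intro x hx y hy
      rw [mμ] at hx
      rw [mC] at hy
      exact ltμC x y (hmem x hx.1) (hmem y hy.1) (hav x hx.1) (hav y hy.1) hx.2 hy.2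
    · intro x hx y hy
      rw [mA] at hx
      rw [List.mem_append, mμ, mC] at hy
      rcases hy with hy | hy
      · exact ltAμ x y (hmem x hx.1) (hmem y hy.1) (hav x hx.1) (hav y hy.1) hx.2 hy.2
      · exact ltAC x y (hmem x hx.1) (hmem y hy.1) (hav x hx.1) (hav y hy.1) hx.2 hy.2
  have hleq : l = A ++ (μ ++ C) := by
    apply D.lt_unique (by omega) hl hpw
    intro x
    rw [List.mem_append, List.mem_append, mA, mμ, mC]
    constructor
    · intro hx
      by_cases h1 : cnt ri Z x < c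
      · exact Or.inl ⟨hx, h1⟩
      · by_cases h2 : cnt (nr ri) Z x < c
        · exact Or.inr (Or.inr ⟨hx, h2⟩)
        · exact Or.inr (Or.inl ⟨hx, not_lt.1 h1, not_lt.1 h2⟩)
    · rintro (h | h | h) <;> exact h.1
  -- the sorted versions
  obtain ⟨A', sA', mA', lA'⟩ := exists_srt hriI A.toFinset
  obtain ⟨C', sC', mC', lC'⟩ := exists_srt hriI C.toFinset
  simp only [List.mem_toFinset] at mA' mC'
  have nA := D.nodup_of_lt (by omega) pA
  have nC := D.nodup_of_lt (by omega) pC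
  have permA : A'.Perm A := (List.perm_ext_iff_of_nodup sA'.nodup nA).2 mA'
  have permC : C'.Perm C := (List.perm_ext_iff_of_nodup sC'.nodup nC).2 mC'
  have hZc := D.card_Z him h0m
  rw [← hZ] at hZc
  have hlen : l.length = A.length + (μ.length + C.length) := by
    have h3 := congrArg List.length hleq
    rwa [List.length_append, List.length_append] at h3
  obtain ⟨μ', sμ', mμ', lμ'⟩ := exists_srt_card hriI
    (s := Z.filter fun u => c ≤ cnt ri Z u ∧ c ≤ cnt (nr ri) Z u) (a := μ.length)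
    ((show μ.length ≤ s by omega).trans (card_mid hriI (by omega)))
  have mμ2 : ∀ x ∈ μ', (x ∈ Vp pre ∧ x ∉ D.T i ∧ x ∉ D.T 0) ∧
      c ≤ cnt ri Z x ∧ c ≤ cnt (nr ri) Z x := by
    intro x hx
    have := mem_filter.1 (mμ' x hx)
    rw [hZ, D.mem_Z, ← hZ] at this
    exact this
  have A0 : ∀ x ∈ A, x ∉ D.T 0 := by
    intro x hx h
    have hx' := (mA x).1 hx
    exact absurd hx'.2 (not_lt.2 (hT x h (hmem x hx'.1)).1)
  have C0 : ∀ x ∈ C, x ∉ D.T 0 := by
    intro x hx h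
    have hx' := (mC x).1 hx
    exact absurd hx'.2 (not_lt.2 (hT x h (hmem x hx'.1)).2)
  have s1 : Srt ri (A' ++ (μ ++ C')) := by
    rw [Srt, List.pairwise_append, List.pairwise_append]
    refine ⟨sA', ⟨?_, sC', ?_⟩, ?_⟩
    · refine pμ.imp_of_mem fun {x y} hx hy hxy => ?_
      rw [mμ] at hx hy
      exact (ltμμ x y (hmem x hx.1) (hmem y hy.1) (hav x hx.1) (hav y hy.1) hx.2 hy.2).1 hxy
    · intro x hx y hy
      rw [mμ] at hx
      rw [mC', mC] at hy
      exact μC x y hx.2.2 hy.2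
    · intro x hx y hy
      rw [mA', mA] at hx
      rw [List.mem_append, mμ, mC', mC] at hy
      rcases hy with hy | hy
      · exact Aμ x y hx.2 hy.2.1
      · exact AC x y hx.2 hy.2
  have s2 : Srt ri (A' ++ (μ' ++ C')) := by
    rw [Srt, List.pairwise_append, List.pairwise_append]
    refine ⟨sA', ⟨sμ', sC', ?_⟩, ?_⟩
    · intro x hx y hy
      rw [mC', mC] at hy
      exact μC x y (mμ2 x hx).2.2 hy.2
    · intro x hx y hy
      rw [mA', mA] at hx
      rw [List.mem_append, mC', mC] at hy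
      rcases hy with hy | hy
      · exact Aμ x y hx.2 (mμ2 y hy).2.1
      · exact AC x y hx.2 hy.2
  have s3 : Srt (D.ρ 0) (A ++ (μ' ++ C)) := by
    rw [Srt, List.pairwise_append, List.pairwise_append]
    refine ⟨?_, ⟨?_, ?_, ?_⟩, ?_⟩
    · exact pA.imp_of_mem fun {x y} hx hy hxy => (D.lt_zero (A0 x hx) (A0 y hy)).1 hxy
    · refine sμ'.imp_of_mem fun {x y} hx hy hxy => ?_
      obtain ⟨hx1, hx2⟩ := mμ2 x hx
      obtain ⟨hy1, hy2⟩ := mμ2 y hy
      exact (D.lt_zero hx1.2.2 hy1.2.2).1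
        ((ltμμ x y hx1.1 hy1.1 hx1.2.1 hy1.2.1 hx2 hy2).2 hxy)
    · exact pC.imp_of_mem fun {x y} hx hy hxy => (D.lt_zero (C0 x hx) (C0 y hy)).1 hxy
    · intro x hx y hy
      obtain ⟨hx1, hx2⟩ := mμ2 x hx
      have hy1 := (mC y).1 hy
      exact (D.lt_zero hx1.2.2 (C0 y hy)).1
        (ltμC x y hx1.1 (hmem y hy1.1) hx1.2.1 (hav y hy1.1) hx2 hy1.2)
    · intro x hx y hy
      have hx1 := (mA x).1 hx
      rw [List.mem_append] at hy
      rcases hy with hy | hy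
      · obtain ⟨hy1, hy2⟩ := mμ2 y hy
        exact (D.lt_zero (A0 x hx) hy1.2.2).1
          (ltAμ x y (hmem x hx1.1) hy1.1 (hav x hx1.1) hy1.2.1 hx1.2 hy2)
      · have hy1 := (mC y).1 hy
        exact (D.lt_zero (A0 x hx) (C0 y hy)).1
          (ltAC x y (hmem x hx1.1) (hmem y hy1.1) (hav x hx1.1) (hav y hy1.1) hx1.2 hy1.2)
  have hperm : (A' ++ (μ' ++ C')).Perm (A ++ (μ' ++ C)) :=
    permA.append (List.Perm.append_left μ' permC)
  have hci : Chart S s pre (Vp pre \ D.T i) ri := hri ▸ D.chart i him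
  have hc0 := D.chart 0 h0m
  have hmem2 : ∀ x ∈ A' ++ (μ' ++ C'), x ∈ Vp pre ∧ x ∉ D.T i ∧ x ∉ D.T 0 := by
    intro x hx
    rw [List.mem_append, List.mem_append, mA', mC'] at hx
    rcases hx with hx | hx | hx
    · have := (mA x).1 hx
      exact ⟨hmem x this.1, hav x this.1, A0 x hx⟩
    · exact (mμ2 x hx).1
    · have := (mC x).1 hx
      exact ⟨hmem x this.1, hav x this.1, C0 x hx⟩
  have hE := chart_E hci hc0 s2 s3 hperm
    (fun x hx => mem_sdiff.2 ⟨(hmem2 x hx).1, (hmem2 x hx).2.1⟩)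
    (fun x hx => mem_sdiff.2 ⟨(hmem2 x hx).1, (hmem2 x hx).2.2⟩)
  have hlen2 : (A' ++ (μ' ++ C')).length = l.length := by
    rw [List.length_append, List.length_append, permA.length_eq, permC.length_eq, lμ', hlen]
  have hlen1 : (A' ++ (μ ++ C')).length = l.length := by
    rw [List.length_append, List.length_append, permA.length_eq, permC.length_eq, hlen]
  -- the transfer
  have hn3 : (pre ++ (A ++ (μ' ++ C))).Nodup := by
    refine List.Nodup.append hpn s3.nodup fun x hx hx' => ?_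
    exact (mem_Vp.1 (hmem2 x (hperm.mem_iff.2 hx')).1) hx
  have hnl : (pre ++ (A ++ (μ ++ C))).Nodup := by
    rw [← hleq]
    refine List.Nodup.append hpn (D.nodup_of_lt (by omega) hl) fun x hx hx' => ?_
    exact (mem_Vp.1 (hmem x hx')) hx
  obtain ⟨θ, hθ⟩ := exists_map hn3 hnl (by simp [lμ'])
  rw [List.map_append, List.map_append, List.map_append] at hθ
  obtain ⟨e1, hθ⟩ := List.append_inj hθ (by simp)
  obtain ⟨e2, hθ⟩ := List.append_inj hθ (by simp)
  obtain ⟨e3, e4⟩ := List.append_inj hθ (by simp [lμ'])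
  have fixA : ∀ x ∈ A, θ x = x := by
    have : A.map θ = A.map id := by rw [e2, List.map_id]
    exact List.map_inj_left.1 this
  have fixC : ∀ x ∈ C, θ x = x := by
    have : C.map θ = C.map id := by rw [e4, List.map_id]
    exact List.map_inj_left.1 this
  have e5 : A'.map θ = A' := by
    have : A'.map θ = A'.map id := List.map_inj_left.2 fun x hx => fixA x ((mA' x).1 hx)
    rw [this, List.map_id]
  have e6 : C'.map θ = C' := by
    have : C'.map θ = C'.map id := List.map_inj_left.2 fun x hx => fixC x ((mC' x).1 hx)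
    rw [this, List.map_id]
  have hv1 := hci (A' ++ (μ ++ C')) s1 (by
    intro x hx
    rw [List.mem_append, List.mem_append, mA', mC'] at hx
    rw [mem_sdiff]
    rcases hx with hx | hx | hx
    · have := (mA x).1 hx
      exact ⟨hmem x this.1, hav x this.1⟩
    · have := (mμ x).1 hx
      exact ⟨hmem x this.1, hav x this.1⟩
    · have := (mC x).1 hx
      exact ⟨hmem x this.1, hav x this.1⟩)
  rw [hlen1] at hv1
  rw [hlen2] at hE
  refine ⟨fun hs => ?_, fun hs => ?_⟩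
  · have h1 := S.map θ (hE.1 hs)
    simp only [List.map_append, e2, e3, e4, e5, e6] at h1
    rw [hleq]
    exact S.val_of (hv1.1 hs) h1
  · have h1 := S.map θ (hE.2 hs)
    simp only [List.map_append, e1, e2, e3, e4, e5, e6] at h1
    rw [hleq]
    exact S.val_of (hv1.2 hs) h1

end GD

end Pool.Agent.NH78.Glue
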